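import Pool.Agent.H241R3.FV.Stmts

set_option autoImplicit false

open MeasureTheory Metric Set Filter Topology InnerProductGeometry
open scoped Pointwise

namespace Pool.Agent.H241R3.FV.TInv

theorem continuous_rot {n : ℕ} (R : E n ≃ₗᵢ[ℝ] E n) : Continuous (rot R) := by
  unfold rot
  exact Continuous.subtype_mk (R.continuous.comp continuous_subtype_val) _

theorem smul_image_preimage {n : ℕ} (R : E n ≃ₗᵢ[ℝ] E n) (s : Set (Sph n)) :
    (Ioo (0 : ℝ) 1 • ((↑) '' (rot R ⁻¹' s) : Set (E n))) =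
      R ⁻¹' (Ioo (0 : ℝ) 1 • ((↑) '' s : Set (E n))) := by
  ext v
  simp only [Set.mem_smul, Set.mem_image, Set.mem_preimage]
  constructor
  · rintro ⟨t, ht, w, ⟨x, hx, rfl⟩, rfl⟩
    exact ⟨t, ht, R (x : E n), ⟨rot R x, hx, rfl⟩, by simp⟩
  · rintro ⟨t, ht, w, ⟨x, hx, rfl⟩, hv⟩
    have hxn : ‖(x : E n)‖ = 1 := by simpa using x.2
    refine ⟨t, ht, R.symm (x : E n), ⟨⟨R.symm (x : E n), by simp [hxn]⟩, ?_, rfl⟩, ?_⟩
    · have : rot R ⟨R.symm (x : E n), by simp [hxn]⟩ = x := by
        apply Subtype.ext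
        simp [rot]
      rw [this]
      exact hx
    · apply R.injective
      rw [← hv]
      simp

theorem taskInv : Pool.Agent.H241R3.FV.TaskInv := by
  intro n hn R
  refine ⟨(continuous_rot R).measurable, ?_⟩
  ext s hs
  rw [Measure.map_apply (continuous_rot R).measurable hs]
  unfold sig
  rw [Measure.toSphere_apply' _ hs,
    Measure.toSphere_apply' _ ((continuous_rot R).measurable hs), smul_image_preimage]
  congr 1
  exact (R.measurePreserving).measure_preimage_equiv (f := R.toMeasurableEquiv) _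

end Pool.Agent.H241R3.FV.TInv
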