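import Pool.Agent.H241R3.FV.Stmts

set_option autoImplicit false

open MeasureTheory Metric Set Filter Topology InnerProductGeometry

namespace Pool.Agent.H241R3.FV.TBdry

open Pool.Agent.H241R3.FV

theorem norm_sph {n : ℕ} (x : Sph n) : ‖(x : E n)‖ = 1 := by simpa using x.2

theorem cont_angle {n : ℕ} (p : Sph n) :
    Continuous (fun x : Sph n => angle (x : E n) (p : E n)) := by
  unfold InnerProductGeometry.angle
  refine Real.continuous_arccos.comp ?_
  simp only [norm_sph, mul_one, div_one]
  exact continuous_subtype_val.inner continuous_const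

instance (n : ℕ) : IsFiniteMeasure (sig n) := by
  unfold sig; infer_instance

theorem integrable_of_cont {n : ℕ} {F : Type} [NormedAddCommGroup F] (f : Sph n → F)
    (hf : Continuous f) : Integrable f (sig n) := by
  exact hf.integrable_of_hasCompactSupport (HasCompactSupport.of_compactSpace f)

theorem rot_cont {n : ℕ} (R : E n ≃ₗᵢ[ℝ] E n) : Continuous (rot R) := by
  unfold rot
  exact Continuous.subtype_mk (R.continuous.comp continuous_subtype_val) _

theorem rot_emb {n : ℕ} (R : E n ≃ₗᵢ[ℝ] E n) : MeasurableEmbedding (rot R) := by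
  have h1 : ∀ x, rot R.symm (rot R x) = x := by
    intro x; apply Subtype.ext; simp [rot]
  have h2 : ∀ x, rot R (rot R.symm x) = x := by
    intro x; apply Subtype.ext; simp [rot]
  exact (Homeomorph.mk (Equiv.mk (rot R) (rot R.symm) h1 h2) (rot_cont R)
    (rot_cont R.symm)).measurableEmbedding

theorem angle_rot {n : ℕ} (R : E n ≃ₗᵢ[ℝ] E n) (x p : Sph n) :
    angle ((rot R x : Sph n) : E n) ((rot R p : Sph n) : E n) = angle (x : E n) (p : E n) := by
  simp only [rot]
  exact R.toLinearIsometry.angle_map _ _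

theorem int_rot {n : ℕ} (hn : 0 < n) (hI : TaskInv) (R : E n ≃ₗᵢ[ℝ] E n)
    {F : Type} [NormedAddCommGroup F] [NormedSpace ℝ F] (f : Sph n → F) :
    ∫ x, f (rot R x) ∂(sig n) = ∫ x, f x ∂(sig n) :=
  (hI n hn R).integral_comp (rot_emb R) f

/-- the vector field -/
noncomputable def V {n : ℕ} (p : Sph n) : E n :=
  ∫ x : Sph n, angle (x : E n) (p : E n) • (x : E n) ∂(sig n)

theorem V_rot {n : ℕ} (hn : 0 < n) (hI : TaskInv) (R : E n ≃ₗᵢ[ℝ] E n) (p : Sph n) :
    R (V p) = V (rot R p) := by
  unfold V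
  rw [← int_rot hn hI R (fun x : Sph n => angle (x : E n) ((rot R p : Sph n) : E n) • (x : E n))]
  have h1 : R (∫ x : Sph n, angle (x : E n) (p : E n) • (x : E n) ∂(sig n)) =
      ∫ x : Sph n, R (angle (x : E n) (p : E n) • (x : E n)) ∂(sig n) :=
    (ContinuousLinearEquiv.integral_comp_comm R.toContinuousLinearEquiv _).symm
  rw [h1]
  congr 1
  ext x : 1
  rw [angle_rot]
  simp [rot]

theorem V_mem {n : ℕ} (hn : 0 < n) (hI : TaskInv) (p : Sph n) : V p ∈ (ℝ ∙ (p : E n)) := by
  have h := V_rot hn hI ((ℝ ∙ (p : E n)).reflection) p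
  have h2 : rot ((ℝ ∙ (p : E n)).reflection) p = p := by
    apply Subtype.ext
    simp only [rot]
    exact Submodule.reflection_mem_subspace_eq_self (Submodule.mem_span_singleton_self _)
  rw [h2] at h
  exact (Submodule.reflection_eq_self_iff _).1 h

theorem inner_V {n : ℕ} (p : Sph n) :
    inner ℝ (p : E n) (V p) = ∫ x : Sph n, (fun t : ℝ => t * Real.cos t)
      (angle (x : E n) (p : E n)) ∂(sig n) := by
  unfold V
  have hint : Integrable (fun x : Sph n => angle (x : E n) (p : E n) • (x : E n)) (sig n) :=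
    integrable_of_cont _ ((cont_angle p).smul continuous_subtype_val)
  rw [← integral_inner hint]
  congr 1
  ext x : 1
  have h1 : Real.cos (angle (x : E n) (p : E n)) = inner ℝ (p : E n) (x : E n) := by
    rw [InnerProductGeometry.cos_angle, norm_sph, norm_sph, mul_one, div_one, real_inner_comm]
  rw [inner_smul_right, ← h1]

theorem by_parts (d : ℕ) (hd : 1 ≤ d) :
    (d : ℝ) * ∫ t in (0 : ℝ)..Real.pi, (t * Real.cos t) * Real.sin t ^ (d - 1) =
      - ∫ t in (0 : ℝ)..Real.pi, Real.sin t ^ d := by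
  have h1 : ∫ t in (0 : ℝ)..Real.pi,
      (Real.sin t ^ d + (d : ℝ) * ((t * Real.cos t) * Real.sin t ^ (d - 1))) = 0 := by
    have h2 : ∀ t ∈ Set.uIcc (0 : ℝ) Real.pi, HasDerivAt (fun t : ℝ => t * Real.sin t ^ d)
        (Real.sin t ^ d + (d : ℝ) * ((t * Real.cos t) * Real.sin t ^ (d - 1))) t := by
      intro t _
      have h3 := (hasDerivAt_id t).mul ((Real.hasDerivAt_sin t).pow d)
      refine (h3.congr_deriv ?_)
      simp only [id]
      simp
      ring
    rw [intervalIntegral.integral_eq_sub_of_hasDerivAt h2]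
    · have : d ≠ 0 := by omega
      simp [this]
    · apply Continuous.intervalIntegrable
      fun_prop
  rw [intervalIntegral.integral_add, intervalIntegral.integral_const_mul] at h1
  · linarith
  · apply Continuous.intervalIntegrable
    fun_prop
  · apply Continuous.intervalIntegrable
    fun_prop

theorem exists_rot {d : ℕ} (p : Sph (d + 1)) : ∃ R : E (d + 1) ≃ₗᵢ[ℝ] E (d + 1),
    R (p : E (d + 1)) = EuclideanSpace.single 0 1 := by
  refine ⟨((ℝ ∙ ((p : E (d + 1)) - EuclideanSpace.single 0 1))ᗮ).reflection, ?_⟩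
  apply Submodule.reflection_sub
  rw [norm_sph]
  simp

theorem taskBdry : TaskBdry := by
  intro hI hP d hd p
  have hn : 0 < d + 1 := Nat.succ_pos d
  change V p = -(lam (d + 1)) • (p : E (d + 1))
  obtain ⟨c, hc⟩ := Submodule.mem_span_singleton.1 (V_mem hn hI p)
  have hin : inner ℝ (p : E (d + 1)) (V p) = c := by
    rw [← hc, inner_smul_right, real_inner_self_eq_norm_sq, norm_sph]
    simp
  obtain ⟨R, hR⟩ := exists_rot p
  have h1 := inner_V p
  rw [hin] at h1
  have h2 : ∫ x : Sph (d + 1), (fun t : ℝ => t * Real.cos t)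
      (angle (x : E (d + 1)) (p : E (d + 1))) ∂(sig (d + 1)) =
      ∫ x : Sph (d + 1), (fun t : ℝ => t * Real.cos t)
        (angle (x : E (d + 1)) (EuclideanSpace.single 0 1)) ∂(sig (d + 1)) := by
    rw [← int_rot hn hI R (fun x : Sph (d + 1) => (fun t : ℝ => t * Real.cos t)
        (angle (x : E (d + 1)) (EuclideanSpace.single 0 1)))]
    congr 1
    ext x : 1
    have h3 : angle ((rot R x : Sph (d + 1)) : E (d + 1)) (EuclideanSpace.single 0 1) =
        angle (x : E (d + 1)) (p : E (d + 1)) := by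
      rw [← angle_rot R x p, ← hR]
      rfl
    rw [h3]
  rw [h2, hP d hd (fun t => t * Real.cos t) (by fun_prop)] at h1
  have h4 := by_parts d hd
  rw [← hc]
  congr 1
  rw [h1]
  unfold lam
  simp only [Nat.add_sub_cancel]
  calc (d : ℝ) * om d * ∫ t in (0 : ℝ)..Real.pi, (t * Real.cos t) * Real.sin t ^ (d - 1)
      = om d * ((d : ℝ) * ∫ t in (0 : ℝ)..Real.pi, (t * Real.cos t) * Real.sin t ^ (d - 1)) := by
        ring
    _ = om d * (- ∫ t in (0 : ℝ)..Real.pi, Real.sin t ^ d) := by rw [h4]
    _ = _ := by ring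

end Pool.Agent.H241R3.FV.TBdry
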