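import Pool.Agent.H241R3.FV.Stmts

set_option autoImplicit false

open MeasureTheory Metric Set Filter Topology InnerProductGeometry

namespace Pool.Agent.H241R3.FV.TConst

theorem om_pos (n : ℕ) : 0 < om n := by
  unfold om
  rw [Measure.real, ENNReal.toReal_pos_iff]
  exact ⟨measure_ball_pos _ _ one_pos, measure_ball_lt_top⟩

theorem sig_univ (n : ℕ) (hn : 0 < n) : (sig n).real univ = n * om n := by
  have : Nonempty (Fin n) := ⟨⟨0, hn⟩⟩
  unfold sig om
  rw [Measure.toSphere_real_apply_univ]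
  simp

theorem sin_red (d : ℕ) (hd : 1 ≤ d) :
    ((d : ℝ) + 1) * ∫ t in (0 : ℝ)..Real.pi, Real.sin t ^ (d + 1) =
      d * ∫ t in (0 : ℝ)..Real.pi, Real.sin t ^ (d - 1) := by
  obtain ⟨n, rfl⟩ := Nat.exists_eq_add_of_le' hd
  have h := integral_sin_pow (a := 0) (b := Real.pi) n
  simp only [Real.sin_zero, Real.sin_pi, ne_eq, Nat.add_eq_zero_iff, one_ne_zero, and_false,
    not_false_eq_true, zero_pow, zero_mul, sub_self, zero_div, zero_add] at h
  have e : n + 1 + 1 = n + 2 := rfl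
  rw [e, h]
  simp only [Nat.add_sub_cancel]
  push_cast
  field_simp
  ring

theorem taskConst : Pool.Agent.H241R3.FV.TaskConst := by
  intro hP d hd
  have h1 : 0 < om (d + 1) := om_pos _
  have h2 : 0 < om d := om_pos _
  have hI1 : 0 < ∫ t in (0 : ℝ)..Real.pi, Real.sin t ^ d := integral_sin_pow_pos _
  have hI2 : 0 < ∫ t in (0 : ℝ)..Real.pi, Real.sin t ^ (d + 1) := integral_sin_pow_pos _
  have hs : (sig (d + 1)).real univ = (d + 1 : ℕ) * om (d + 1) := sig_univ (d + 1) (by omega)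
  have hlam : lam (d + 1) = om d * ∫ t in (0 : ℝ)..Real.pi, Real.sin t ^ d := by
    unfold lam
    simp only [Nat.add_sub_cancel]
  have hp := hP d hd (fun _ => 1) continuous_const
  simp only [integral_const, smul_eq_mul, mul_one, one_mul] at hp
  rw [hs] at hp
  have hr := sin_red d hd
  have key : om (d + 1) = om d * ∫ t in (0 : ℝ)..Real.pi, Real.sin t ^ (d + 1) := by
    have hd' : ((d : ℝ) + 1) ≠ 0 := by positivity
    apply mul_left_cancel₀ hd'
    push_cast at hp
    rw [hp]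
    calc (d : ℝ) * om d * ∫ t in (0 : ℝ)..Real.pi, Real.sin t ^ (d - 1)
        = om d * (d * ∫ t in (0 : ℝ)..Real.pi, Real.sin t ^ (d - 1)) := by ring
      _ = om d * (((d : ℝ) + 1) * ∫ t in (0 : ℝ)..Real.pi, Real.sin t ^ (d + 1)) := by rw [hr]
      _ = _ := by ring
  refine ⟨h1, ?_, hs, ?_⟩
  · rw [hlam]; positivity
  · rw [hlam, key]
    field_simp

end Pool.Agent.H241R3.FV.TConst
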