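import Pool.Agent.H241R3.FV.Stmts

set_option autoImplicit false

open MeasureTheory Metric Set Filter Topology InnerProductGeometry

namespace Pool.Agent.H241R3.FV.TCover

theorem taskCover : TaskCover := by
  intro n hn M _ bd hno Φ l hl hΦ hbd y hy
  by_contra hcon
  apply hno
  have hyl : ‖y‖ < l := by simpa using hy
  have hw : ∀ q, Φ q - y ≠ 0 := by
    intro q h
    apply hcon
    exact ⟨q, sub_eq_zero.mp h⟩
  -- ingredients
  let w : M → E n := fun q => Φ q - y
  let a : M → ℝ := fun q => ‖w q‖ ^ 2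
  let b : M → ℝ := fun q => inner ℝ y (w q)
  let D : M → ℝ := fun q => b q ^ 2 + a q * (l ^ 2 - ‖y‖ ^ 2)
  let t : M → ℝ := fun q => (-b q + √(D q)) / a q
  let P : M → E n := fun q => y + t q • w q
  have hwc : Continuous w := hΦ.sub continuous_const
  have hac : Continuous a := hwc.norm.pow 2
  have hbc : Continuous b := continuous_const.inner hwc
  have hDc : Continuous D := (hbc.pow 2).add (hac.mul continuous_const)
  have hapos : ∀ q, 0 < a q := fun q => by
    have : 0 < ‖w q‖ := norm_pos_iff.mpr (hw q)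
    positivity
  have htc : Continuous t :=
    ((hbc.neg).add hDc.sqrt).div hac (fun q => (hapos q).ne')
  have hPc : Continuous P := continuous_const.add (htc.smul hwc)
  have hl2 : 0 < l ^ 2 - ‖y‖ ^ 2 := by
    have := norm_nonneg y
    nlinarith
  have hDpos : ∀ q, 0 ≤ D q := fun q => by
    have := hapos q
    positivity
  have hnorm : ∀ q, ‖P q‖ ^ 2 = l ^ 2 := by
    intro q
    have h1 : ‖P q‖ ^ 2 = ‖y‖ ^ 2 + 2 * (t q * b q) + (t q) ^ 2 * a q := by
      show ‖y + t q • w q‖ ^ 2 = _
      rw [@norm_add_sq_real, inner_smul_right, norm_smul, mul_pow]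
      simp only [Real.norm_eq_abs, sq_abs]
      rfl
    have h2 : t q * a q = -b q + √(D q) := by
      show (-b q + √(D q)) / a q * a q = _
      exact div_mul_cancel₀ _ (hapos q).ne'
    have h3 : √(D q) ^ 2 = D q := Real.sq_sqrt (hDpos q)
    have h4 : (t q * a q + b q) ^ 2 = D q := by
      rw [h2]
      have : -b q + √(D q) + b q = √(D q) := by ring
      rw [this, h3]
    have h5 : (t q * a q + b q) ^ 2 = a q * ((t q) ^ 2 * a q + 2 * (t q * b q)) + b q ^ 2 := by
      ring
    have h6 : a q * ((t q) ^ 2 * a q + 2 * (t q * b q)) = a q * (l ^ 2 - ‖y‖ ^ 2) := by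
      have h7 : D q = b q ^ 2 + a q * (l ^ 2 - ‖y‖ ^ 2) := rfl
      rw [h7] at h4
      linarith
    have h8 := mul_left_cancel₀ (hapos q).ne' h6
    rw [h1]
    linarith
  have hnorm' : ∀ q, ‖P q‖ = l := fun q => by
    have h1 := hnorm q
    have h2 := norm_nonneg (P q)
    exact (sq_eq_sq₀ h2 hl.le).mp h1
  refine ⟨fun q => ⟨l⁻¹ • P q, ?_⟩, ?_, ?_⟩
  · simp only [mem_sphere_iff_norm, sub_zero]
    rw [norm_smul, hnorm', norm_inv, Real.norm_of_nonneg hl.le]
    exact inv_mul_cancel₀ hl.ne'
  · exact Continuous.subtype_mk (hPc.const_smul l⁻¹) _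
  · intro x
    apply Subtype.ext
    show l⁻¹ • P (bd x) = (x : E n)
    have hx : ‖(x : E n)‖ = 1 := by
      have := x.2
      simpa using this
    have hΦx : Φ (bd x) = l • (x : E n) := hbd x
    have hyw : y + w (bd x) = l • (x : E n) := by
      show y + (Φ (bd x) - y) = _
      rw [hΦx]
      abel
    have e1 : l ^ 2 - ‖y‖ ^ 2 = 2 * b (bd x) + a (bd x) := by
      have h1 : ‖y + w (bd x)‖ ^ 2 = l ^ 2 := by
        rw [hyw, norm_smul, hx, mul_one, Real.norm_of_nonneg hl.le]
      rw [@norm_add_sq_real] at h1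
      have h2 : b (bd x) = inner ℝ y (w (bd x)) := rfl
      have h3 : a (bd x) = ‖w (bd x)‖ ^ 2 := rfl
      rw [h2, h3]
      linarith
    have e2 : D (bd x) = (a (bd x) + b (bd x)) ^ 2 := by
      show b (bd x) ^ 2 + a (bd x) * (l ^ 2 - ‖y‖ ^ 2) = _
      rw [e1]
      ring
    have e3 : 0 ≤ a (bd x) + b (bd x) := by
      have h1 : a (bd x) + b (bd x) = inner ℝ (y + w (bd x)) (w (bd x)) := by
        rw [inner_add_left, real_inner_self_eq_norm_sq]
        show ‖w (bd x)‖ ^ 2 + inner ℝ y (w (bd x)) = _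
        ring
      rw [h1, hyw]
      have h2 : w (bd x) = l • (x : E n) - y := by
        show Φ (bd x) - y = _
        rw [hΦx]
      rw [h2, inner_sub_right, real_inner_self_eq_norm_sq, norm_smul, hx, mul_one,
        Real.norm_of_nonneg hl.le]
      have h3 : inner ℝ (l • (x : E n)) y ≤ ‖l • (x : E n)‖ * ‖y‖ := real_inner_le_norm _ _
      rw [norm_smul, hx, mul_one, Real.norm_of_nonneg hl.le] at h3
      nlinarith
    have e4 : t (bd x) = 1 := by
      show (-b (bd x) + √(D (bd x))) / a (bd x) = 1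
      rw [e2, Real.sqrt_sq e3]
      have : -b (bd x) + (a (bd x) + b (bd x)) = a (bd x) := by ring
      rw [this, div_self (hapos _).ne']
    have e5 : P (bd x) = l • (x : E n) := by
      show y + t (bd x) • w (bd x) = _
      rw [e4, one_smul, hyw]
    rw [e5, smul_smul, inv_mul_cancel₀ hl.ne', one_smul]

end Pool.Agent.H241R3.FV.TCover
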