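import Pool.Agent.H241R3.FV.Stmts

/-!
# Task `TaskDiff`: differentiation under the integral sign
-/

set_option autoImplicit false

open MeasureTheory Metric Set Filter Topology InnerProductGeometry

namespace Pool.Agent.H241R3.FV.TDiff

open Pool.Agent.H241R3.FV

variable {n : ℕ}

lemma abs_apply_le (v : E n) (i : Fin n) : |v i| ≤ ‖v‖ := by
  simpa using PiLp.norm_apply_le v i

lemma gnorm_le (G : Matrix (Fin n) (Fin n) ℝ) :
    ∃ C : ℝ, 0 ≤ C ∧ ∀ v : E n, gnorm G v ≤ C * ‖v‖ := by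
  obtain ⟨S, hS⟩ : ∃ S : ℝ, S = ∑ i, ∑ j, |G i j| := ⟨_, rfl⟩
  have hS0 : 0 ≤ S := by
    rw [hS]
    exact Finset.sum_nonneg fun i _ => Finset.sum_nonneg fun j _ => abs_nonneg _
  refine ⟨√S, Real.sqrt_nonneg _, fun v => ?_⟩
  unfold gnorm
  have h0 : √S * ‖v‖ = √(S * ‖v‖ ^ 2) := by
    rw [Real.sqrt_mul hS0, Real.sqrt_sq (norm_nonneg v)]
  rw [h0]
  apply Real.sqrt_le_sqrt
  rw [hS, Finset.sum_mul]
  refine Finset.sum_le_sum fun i _ => ?_
  rw [Finset.sum_mul]
  refine Finset.sum_le_sum fun j _ => ?_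
  calc v i * G i j * v j ≤ |v i * G i j * v j| := le_abs_self _
    _ = |G i j| * (|v i| * |v j|) := by rw [abs_mul, abs_mul]; ring
    _ ≤ |G i j| * ‖v‖ ^ 2 := by
        have h1 := abs_apply_le v i
        have h2 := abs_apply_le v j
        have : |v i| * |v j| ≤ ‖v‖ * ‖v‖ := mul_le_mul h1 h2 (abs_nonneg _) (norm_nonneg _)
        rw [sq]
        exact mul_le_mul_of_nonneg_left this (abs_nonneg _)

lemma gnorm_smul (G : Matrix (Fin n) (Fin n) ℝ) (t : ℝ) (v : E n) :
    gnorm G (t • v) = |t| * gnorm G v := by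
  unfold gnorm
  have : ∑ i, ∑ j, (t • v) i * G i j * (t • v) j = t ^ 2 * ∑ i, ∑ j, v i * G i j * v j := by
    rw [Finset.mul_sum]
    refine Finset.sum_congr rfl fun i _ => ?_
    rw [Finset.mul_sum]
    refine Finset.sum_congr rfl fun j _ => ?_
    simp only [PiLp.smul_apply, smul_eq_mul]
    ring
  rw [this, Real.sqrt_mul (sq_nonneg t), Real.sqrt_sq_eq_abs]

lemma gnorm_nonneg (G : Matrix (Fin n) (Fin n) ℝ) (v : E n) : 0 ≤ gnorm G v := Real.sqrt_nonneg _

lemma continuous_gnorm_act (G A : Matrix (Fin n) (Fin n) ℝ) :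
    Continuous fun x : Sph n => gnorm G (act A (x : E n)) := by
  have h : ∀ i, Continuous fun x : Sph n => (act A (x : E n)) i := by
    intro i
    show Continuous fun x : Sph n => ∑ j, A i j * (x : E n) j
    refine continuous_finsetSum _ fun j _ => continuous_const.mul ?_
    exact (EuclideanSpace.proj (𝕜 := ℝ) j).continuous.comp continuous_subtype_val
  unfold gnorm
  refine Real.continuous_sqrt.comp ?_
  refine continuous_finsetSum _ fun i _ => continuous_finsetSum _ fun j _ => ?_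
  exact ((h i).mul continuous_const).mul (h j)

/-! ### the clamp -/

noncomputable def clamp (p0 : E n) (ρ : ℝ) (q : E n) : E n :=
  p0 + (ρ / max ρ ‖q - p0‖) • (q - p0)

lemma clamp_cont (p0 : E n) {ρ : ℝ} (hρ : 0 < ρ) : Continuous (clamp p0 ρ) := by
  unfold clamp
  have h : ∀ q : E n, max ρ ‖q - p0‖ ≠ 0 := fun q => (lt_max_of_lt_left hρ).ne'
  have h1 : Continuous fun q : E n => ρ / max ρ ‖q - p0‖ :=
    continuous_const.div (continuous_const.max (by fun_prop)) h
  exact continuous_const.add (h1.smul (by fun_prop))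

lemma clamp_mem (p0 : E n) {ρ : ℝ} (hρ : 0 < ρ) (q : E n) : clamp p0 ρ q ∈ closedBall p0 ρ := by
  rw [mem_closedBall, dist_eq_norm]
  unfold clamp
  have h : 0 < max ρ ‖q - p0‖ := lt_max_of_lt_left hρ
  rw [add_sub_cancel_left, norm_smul, Real.norm_eq_abs, abs_of_nonneg (by positivity),
    div_mul_eq_mul_div, div_le_iff₀ h]
  exact mul_le_mul_of_nonneg_left (le_max_right _ _) hρ.le

lemma clamp_eq (p0 : E n) {ρ : ℝ} (hρ : 0 < ρ) {q : E n} (hq : q ∈ closedBall p0 ρ) :
    clamp p0 ρ q = q := by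
  rw [mem_closedBall, dist_eq_norm] at hq
  unfold clamp
  rw [max_eq_left hq, div_self hρ.ne', one_smul, add_sub_cancel]

/-! ### continuity of the angle on the sphere -/

lemma tendsto_angle (x0 : Sph n) :
    Tendsto (fun x : Sph n => angle (x : E n) (x0 : E n)) (𝓝 x0) (𝓝 0) := by
  have hne : (x0 : E n) ≠ 0 := by
    intro h
    have := x0.2
    rw [mem_sphere_zero_iff_norm, h, norm_zero] at this
    exact zero_ne_one this
  have h1 : ContinuousAt (fun y : E n × E n => angle y.1 y.2) ((x0 : E n), (x0 : E n)) :=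
    continuousAt_angle hne hne
  have h2 : Tendsto (fun x : Sph n => ((x : E n), (x0 : E n))) (𝓝 x0)
      (𝓝 ((x0 : E n), (x0 : E n))) :=
    (continuous_subtype_val.prodMk continuous_const).continuousAt.tendsto
  have h3 := h1.tendsto.comp h2
  simp only [angle_self hne] at h3
  exact h3

variable {U : Set (E n)} {G : E n → Matrix (Fin n) (Fin n) ℝ} {F : Sph n → E n → ℝ}

/-- continuity in the parameter -/
lemma cont_param (hx : ∀ x x' : Sph n, ∀ p ∈ U, |F x p - F x' p| ≤ angle (x : E n) (x' : E n))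
    {q : E n} (hq : q ∈ U) : Continuous fun x : Sph n => F x q := by
  rw [continuous_iff_continuousAt]
  intro x0
  rw [ContinuousAt, tendsto_iff_dist_tendsto_zero]
  refine squeeze_zero (fun _ => dist_nonneg) (fun x => ?_) (tendsto_angle x0)
  rw [Real.dist_eq]
  exact hx x x0 q hq

lemma cont_uncurry (hx : ∀ x x' : Sph n, ∀ p ∈ U, |F x p - F x' p| ≤ angle (x : E n) (x' : E n))
    {p0 : E n} {ρ K : ℝ} (hρ : 0 < ρ) (hU : closedBall p0 ρ ⊆ U)
    (hK : ∀ x, ∀ y ∈ closedBall p0 ρ, ∀ z ∈ closedBall p0 ρ, |F x y - F x z| ≤ K * ‖y - z‖) :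
    Continuous (Function.uncurry fun (x : Sph n) (q : E n) => F x (clamp p0 ρ q)) := by
  rw [continuous_iff_continuousAt]
  rintro ⟨x0, q0⟩
  rw [ContinuousAt, tendsto_iff_dist_tendsto_zero]
  have h1 : Tendsto (fun a : Sph n × E n => angle (a.1 : E n) (x0 : E n)) (𝓝 (x0, q0)) (𝓝 0) :=
    (tendsto_angle x0).comp (continuous_fst.continuousAt.tendsto (x := (x0, q0)))
  have h2 : Tendsto (fun a : Sph n × E n => K * ‖clamp p0 ρ a.2 - clamp p0 ρ q0‖)
      (𝓝 (x0, q0)) (𝓝 0) := by
    have h3 : Continuous fun a : Sph n × E n => K * ‖clamp p0 ρ a.2 - clamp p0 ρ q0‖ :=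
      continuous_const.mul
        (((clamp_cont p0 hρ).comp continuous_snd).sub continuous_const).norm
    have h4 := h3.tendsto (x0, q0)
    simpa using h4
  have h3 := h1.add h2
  rw [add_zero] at h3
  refine squeeze_zero (fun _ => dist_nonneg) (fun a => ?_) h3
  rw [Real.dist_eq]
  show |F a.1 (clamp p0 ρ a.2) - F x0 (clamp p0 ρ q0)| ≤ _
  have e1 := hx a.1 x0 (clamp p0 ρ a.2) (hU (clamp_mem p0 hρ _))
  have e2 := hK x0 (clamp p0 ρ a.2) (clamp_mem p0 hρ _) (clamp p0 ρ q0) (clamp_mem p0 hρ _)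
  calc |F a.1 (clamp p0 ρ a.2) - F x0 (clamp p0 ρ q0)|
      = |(F a.1 (clamp p0 ρ a.2) - F x0 (clamp p0 ρ a.2)) +
          (F x0 (clamp p0 ρ a.2) - F x0 (clamp p0 ρ q0))| := by ring_nf
    _ ≤ _ := (abs_add_le _ _).trans (add_le_add e1 e2)

/-- local data at a point -/
lemma local_lip (hloc : ∀ p ∈ U, ∀ ε : ℝ, 0 < ε → ∃ r : ℝ, 0 < r ∧ ball p r ⊆ U ∧
      ∀ x, ∀ y ∈ ball p r, ∀ z ∈ ball p r,
        |F x y - F x z| ≤ gnorm (G p) (y - z) + ε * ‖y - z‖) {p : E n} (hp : p ∈ U) :
    ∃ ρ K : ℝ, 0 < ρ ∧ 0 ≤ K ∧ closedBall p ρ ⊆ U ∧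
      ∀ x, ∀ y ∈ closedBall p ρ, ∀ z ∈ closedBall p ρ, |F x y - F x z| ≤ K * ‖y - z‖ := by
  obtain ⟨r, hr, hrU, h⟩ := hloc p hp 1 one_pos
  obtain ⟨C, hC, hC'⟩ := gnorm_le (G p)
  have hsub : closedBall p (r / 2) ⊆ ball p r := closedBall_subset_ball (by linarith)
  refine ⟨r / 2, C + 1, by positivity, by positivity, hsub.trans hrU, fun x y hy z hz => ?_⟩
  have h1 := h x y (hsub hy) z (hsub hz)
  have h2 := hC' (y - z)
  linarith

lemma clamp_eventually (p0 : E n) {ρ : ℝ} (hρ : 0 < ρ) {p : E n} (hp : p ∈ ball p0 ρ)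
    (f : E n → ℝ) : (fun q => f (clamp p0 ρ q)) =ᶠ[𝓝 p] f := by
  filter_upwards [isOpen_ball.mem_nhds hp] with q hq
  rw [clamp_eq p0 hρ (ball_subset_closedBall hq)]

/-- almost every point is a point of differentiability for almost every parameter -/
lemma ae_diff (hx : ∀ x x' : Sph n, ∀ p ∈ U, |F x p - F x' p| ≤ angle (x : E n) (x' : E n))
    {p0 : E n} {ρ K : ℝ} (hρ : 0 < ρ) (hK0 : 0 ≤ K) (hU : closedBall p0 ρ ⊆ U)
    (hK : ∀ x, ∀ y ∈ closedBall p0 ρ, ∀ z ∈ closedBall p0 ρ, |F x y - F x z| ≤ K * ‖y - z‖) :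
    ∀ᵐ p ∂((volume : Measure (E n)).restrict (ball p0 ρ)),
      ∀ᵐ x ∂(sig n), DifferentiableAt ℝ (F x) p := by
  have hcont := cont_uncurry hx hρ hU hK
  have hmeas : MeasurableSet {a : Sph n × E n |
      DifferentiableAt ℝ (fun q => F a.1 (clamp p0 ρ q)) a.2} :=
    measurableSet_of_differentiableAt_with_param ℝ hcont
  have : IsFiniteMeasure (sig n) := by unfold sig; infer_instance
  have key : ∀ᵐ x ∂(sig n), ∀ᵐ p ∂((volume : Measure (E n)).restrict (ball p0 ρ)),
      DifferentiableAt ℝ (fun q => F x (clamp p0 ρ q)) p := by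
    refine Eventually.of_forall fun x => ?_
    have hL : LipschitzOnWith (Real.toNNReal K) (F x) (ball p0 ρ) := by
      refine LipschitzOnWith.of_dist_le_mul fun y hy z hz => ?_
      rw [Real.dist_eq, dist_eq_norm, Real.coe_toNNReal K hK0]
      exact hK x y (ball_subset_closedBall hy) z (ball_subset_closedBall hz)
    have h := hL.ae_differentiableWithinAt (μ := (volume : Measure (E n))) measurableSet_ball
    filter_upwards [h, ae_restrict_mem measurableSet_ball] with p hp hpm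
    have h1 : DifferentiableAt ℝ (F x) p := hp.differentiableAt (isOpen_ball.mem_nhds hpm)
    exact (clamp_eventually p0 hρ hpm (F x)).differentiableAt_iff.2 h1
  have h2 := (Measure.ae_ae_comm (μ := sig n)
    (ν := (volume : Measure (E n)).restrict (ball p0 ρ))
    (p := fun x p => DifferentiableAt ℝ (fun q => F x (clamp p0 ρ q)) p) hmeas).1 key
  filter_upwards [h2, ae_restrict_mem measurableSet_ball] with p hp hpm
  filter_upwards [hp] with x hx1
  exact (clamp_eventually p0 hρ hpm (F x)).differentiableAt_iff.1 hx1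

lemma ae_diff' (hx : ∀ x x' : Sph n, ∀ p ∈ U, |F x p - F x' p| ≤ angle (x : E n) (x' : E n))
    (hloc : ∀ p ∈ U, ∀ ε : ℝ, 0 < ε → ∃ r : ℝ, 0 < r ∧ ball p r ⊆ U ∧
      ∀ x, ∀ y ∈ ball p r, ∀ z ∈ ball p r,
        |F x y - F x z| ≤ gnorm (G p) (y - z) + ε * ‖y - z‖) :
    ∀ᵐ p ∂(volume : Measure (E n)), p ∈ U → ∀ᵐ x ∂(sig n), DifferentiableAt ℝ (F x) p := by
  rw [ae_iff]
  apply measure_null_of_locally_null
  intro p hp
  have hpU : p ∈ U := by
    by_contra h
    exact hp fun h' => absurd h' h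
  obtain ⟨ρ, K, hρ, hK0, hU, hK⟩ := local_lip hloc hpU
  refine ⟨{q | ¬(q ∈ U → ∀ᵐ x ∂(sig n), DifferentiableAt ℝ (F x) q)} ∩ ball p ρ, ?_, ?_⟩
  · exact inter_mem_nhdsWithin _ (ball_mem_nhds p hρ)
  · have h := ae_diff hx hρ hK0 hU hK
    rw [ae_restrict_iff' measurableSet_ball, ae_iff] at h
    refine measure_mono_null ?_ h
    rintro q ⟨hq1, hq2⟩
    intro hq3
    exact hq1 fun _ => hq3 hq2

/-- the directional derivative is bounded by the norm -/
lemma fderiv_le (hloc : ∀ p ∈ U, ∀ ε : ℝ, 0 < ε → ∃ r : ℝ, 0 < r ∧ ball p r ⊆ U ∧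
      ∀ x, ∀ y ∈ ball p r, ∀ z ∈ ball p r,
        |F x y - F x z| ≤ gnorm (G p) (y - z) + ε * ‖y - z‖) {p : E n} (hp : p ∈ U)
    {x : Sph n} (hd : DifferentiableAt ℝ (F x) p) (v : E n) :
    fderiv ℝ (F x) p v ≤ gnorm (G p) v := by
  have main : ∀ ε : ℝ, 0 < ε → fderiv ℝ (F x) p v ≤ gnorm (G p) v + ε * ‖v‖ := by
    intro ε hε
    obtain ⟨r, hr, hrU, h⟩ := hloc p hp ε hε
    have h1 : HasDerivAt (fun t : ℝ => F x (p + t • v)) (fderiv ℝ (F x) p v) 0 :=
      hd.hasFDerivAt.hasLineDerivAt v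
    rw [hasDerivAt_iff_tendsto_slope_zero] at h1
    have h2 : Tendsto (fun t : ℝ => t⁻¹ • (F x (p + (0 + t) • v) - F x (p + (0 : ℝ) • v)))
        (𝓝[>] 0) (𝓝 (fderiv ℝ (F x) p v)) :=
      h1.mono_left (nhdsWithin_mono _ fun t ht => ne_of_gt ht)
    refine le_of_tendsto h2 ?_
    have h3 : ∀ᶠ t : ℝ in 𝓝[>] 0, p + t • v ∈ ball p r := by
      have hc : Continuous fun t : ℝ => p + t • v := by fun_prop
      have : (fun t : ℝ => p + t • v) ⁻¹' (ball p r) ∈ 𝓝 (0 : ℝ) := by
        apply hc.continuousAt.preimage_mem_nhds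
        simpa using ball_mem_nhds p hr
      exact nhdsWithin_le_nhds this
    filter_upwards [h3, self_mem_nhdsWithin] with t ht1 ht2
    have ht : (0 : ℝ) < t := ht2
    rw [zero_add, zero_smul, add_zero, smul_eq_mul]
    have h4 := h x (p + t • v) ht1 p (mem_ball_self hr)
    rw [add_sub_cancel_left, gnorm_smul, norm_smul, Real.norm_eq_abs, abs_of_pos ht] at h4
    have h5 := le_abs_self (F x (p + t • v) - F x p)
    rw [inv_mul_le_iff₀ ht]
    nlinarith
  refine le_of_forall_pos_le_add fun ε hε => ?_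
  have h := main (ε / (‖v‖ + 1)) (by positivity)
  refine h.trans (add_le_add le_rfl ?_)
  rw [div_mul_eq_mul_div, div_le_iff₀ (by positivity)]
  nlinarith [norm_nonneg v]

lemma integrable_of_cont {H : Type*} [NormedAddCommGroup H] {f : Sph n → H}
    (hf : Continuous f) : Integrable f (sig n) := by
  have : IsFiniteMeasure (sig n) := by unfold sig; infer_instance
  exact hf.integrable_of_hasCompactSupport (HasCompactSupport.of_compactSpace _)

lemma apply_eq_sum (ℓ : E n →L[ℝ] ℝ) (w : E n) :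
    ℓ w = ∑ j, w j * ℓ (EuclideanSpace.single j (1 : ℝ)) := by
  have h := (EuclideanSpace.basisFun (Fin n) ℝ).sum_repr w
  conv_lhs => rw [← h]
  rw [map_sum]
  refine Finset.sum_congr rfl fun j _ => ?_
  rw [map_smul, smul_eq_mul]
  simp

lemma proj_app (i : Fin n) (w : E n) :
    (EuclideanSpace.proj (𝕜 := ℝ) i : E n →L[ℝ] ℝ) w = w i := rfl

noncomputable def Tr (A : Matrix (Fin n) (Fin n) ℝ) : (E n →L[ℝ] E n) →L[ℝ] ℝ :=
  ∑ i, ∑ j, A j i • ((EuclideanSpace.proj (𝕜 := ℝ) i : E n →L[ℝ] ℝ) ∘L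
    (ContinuousLinearMap.apply ℝ (E n) (EuclideanSpace.single j (1 : ℝ))))

lemma Tr_apply (A : Matrix (Fin n) (Fin n) ℝ) (L : E n →L[ℝ] E n) :
    Tr A L = (mat L * A).trace := by
  unfold Tr mat Matrix.trace
  simp only [_root_.sum_apply, _root_.smul_apply,
    ContinuousLinearMap.comp_apply, ContinuousLinearMap.apply_apply, proj_app,
    Matrix.diag_apply, Matrix.mul_apply, smul_eq_mul]
  refine Finset.sum_congr rfl fun i _ => Finset.sum_congr rfl fun j _ => ?_
  ring

lemma Tr_smulRight (A : Matrix (Fin n) (Fin n) ℝ) (ℓ : E n →L[ℝ] ℝ) (v : E n) :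
    Tr A (ℓ.smulRight v) = ℓ (act A v) := by
  rw [apply_eq_sum ℓ (act A v)]
  unfold Tr act
  simp only [_root_.sum_apply, _root_.smul_apply,
    ContinuousLinearMap.comp_apply, ContinuousLinearMap.apply_apply, proj_app,
    ContinuousLinearMap.smulRight_apply, PiLp.smul_apply, smul_eq_mul]
  rw [Finset.sum_comm]
  refine Finset.sum_congr rfl fun j _ => ?_
  rw [Finset.sum_mul]
  refine Finset.sum_congr rfl fun i _ => ?_
  ring

theorem taskDiff : Pool.Agent.H241R3.FV.TaskDiff := by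
  intro n _ U hU G F hloc hx
  filter_upwards [ae_diff' hx hloc] with p hp hpU
  have hd := hp hpU
  obtain ⟨ρ, K, hρ, hK0, hKU, hK⟩ := local_lip hloc hpU
  have hcont := cont_uncurry hx hρ hKU hK
  -- measurability of the derivative
  have hm0 : Measurable fun a : Sph n × E n =>
      fderiv ℝ (fun q => F a.1 (clamp p ρ q)) a.2 := measurable_fderiv_with_param ℝ hcont
  have hm1 : Measurable fun x : Sph n => fderiv ℝ (F x) p := by
    have h1 : Measurable fun x : Sph n => fderiv ℝ (fun q => F x (clamp p ρ q)) p :=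
      hm0.comp (measurable_id.prodMk measurable_const)
    have h2 : (fun x : Sph n => fderiv ℝ (fun q => F x (clamp p ρ q)) p) =
        fun x : Sph n => fderiv ℝ (F x) p := by
      funext x
      exact (clamp_eventually p hρ (mem_ball_self hρ) (F x)).fderiv_eq
    rwa [h2] at h1
  have hm2 : AEStronglyMeasurable
      (fun x : Sph n => (fderiv ℝ (F x) p).smulRight (x : E n)) (sig n) := by
    have h1 : StronglyMeasurable fun x : Sph n => fderiv ℝ (F x) p := hm1.stronglyMeasurable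
    have h2 : StronglyMeasurable fun x : Sph n => (x : E n) :=
      continuous_subtype_val.stronglyMeasurable
    have h3 : Continuous fun a : (E n →L[ℝ] ℝ) × E n => a.1.smulRight a.2 := by
      have := (ContinuousLinearMap.smulRightL ℝ (E n) (E n)).continuous₂
      exact this
    exact (h3.comp_stronglyMeasurable (h1.prodMk h2)).aestronglyMeasurable
  have hint := hasFDerivAt_integral_of_dominated_loc_of_lip (μ := sig n) (x₀ := p)
    (s := ball p ρ) (F := fun q (x : Sph n) => F x q • (x : E n))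
    (F' := fun x : Sph n => (fderiv ℝ (F x) p).smulRight (x : E n)) (bound := fun _ => K)
    (ball_mem_nhds p hρ)
    (by
      filter_upwards [hU.mem_nhds hpU] with q hq
      exact ((cont_param hx hq).smul continuous_subtype_val).aestronglyMeasurable)
    (integrable_of_cont ((cont_param hx hpU).smul continuous_subtype_val))
    hm2
    (by
      refine Eventually.of_forall fun x => ?_
      refine LipschitzOnWith.of_dist_le_mul fun y hy z hz => ?_
      rw [dist_eq_norm, dist_eq_norm, ← sub_smul, norm_smul]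
      have hx1 : ‖(x : E n)‖ = 1 := by simpa using x.2
      rw [hx1, mul_one, Real.norm_eq_abs]
      have h := hK x y (ball_subset_closedBall hy) z (ball_subset_closedBall hz)
      simpa [abs_of_nonneg hK0] using h)
    (integrable_of_cont continuous_const)
    (by
      filter_upwards [hd] with x hx1
      exact hx1.hasFDerivAt.smul_const (x : E n))
  refine ⟨_, hint.2, fun A => ?_⟩
  rw [← Tr_apply, ← ContinuousLinearMap.integral_comp_comm (Tr A) hint.1]
  refine integral_mono_ae ?_ (integrable_of_cont (continuous_gnorm_act (G p) A)) ?_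
  · exact (Tr A).integrable_comp hint.1
  · filter_upwards [hd] with x hx1
    show Tr A ((fderiv ℝ (F x) p).smulRight (x : E n)) ≤ _
    rw [Tr_smulRight]
    exact fderiv_le hloc hpU hx1 _

end Pool.Agent.H241R3.FV.TDiff
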