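import Pool.Agent.H241R3.FV.Stmts

set_option autoImplicit false

open MeasureTheory Metric Set Filter Topology InnerProductGeometry

namespace Pool.Agent.H241R3.FV.TExt

theorem sph_nonempty {n : ℕ} (hn : 0 < n) : Nonempty (Sph n) := by
  have : Nonempty (Fin n) := ⟨⟨0, hn⟩⟩
  exact ⟨⟨EuclideanSpace.single ⟨0, hn⟩ 1, by simp⟩⟩

theorem bdd {n : ℕ} {M : Type} [MetricSpace M] (bd : Sph n → M) (x : Sph n) (q : M) :
    BddBelow (Set.range fun p : Sph n => angle (x : E n) (p : E n) + dist q (bd p)) := by
  refine ⟨0, ?_⟩
  rintro _ ⟨p, rfl⟩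
  exact add_nonneg (angle_nonneg _ _) dist_nonneg

theorem ext_le_add {n : ℕ} (hn : 0 < n) {M : Type} [MetricSpace M] (bd : Sph n → M)
    (x x' : Sph n) (q q' : M) (c : ℝ)
    (h : ∀ p : Sph n, angle (x : E n) (p : E n) + dist q (bd p)
      ≤ angle (x' : E n) (p : E n) + dist q' (bd p) + c) :
    ext bd x q ≤ ext bd x' q' + c := by
  have := sph_nonempty hn
  have h1 : ext bd x q - c ≤ ext bd x' q' := by
    unfold ext
    apply le_ciInf
    intro p
    have h2 := ciInf_le (bdd bd x q) p
    have h3 := h p
    linarith
  linarith

end Pool.Agent.H241R3.FV.TExt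

namespace Pool.Agent.H241R3.FV

open TExt

theorem taskExt : Pool.Agent.H241R3.FV.TaskExt := by
  intro n hn M _ bd hns
  refine ⟨?_, ?_, ?_⟩
  · intro x q q'
    rw [abs_le]
    have h1 := ext_le_add hn bd x x q' q (dist q q') (fun p => by
      have := dist_triangle q' q (bd p)
      rw [dist_comm q' q] at this
      linarith)
    have h2 := ext_le_add hn bd x x q q' (dist q q') (fun p => by
      have := dist_triangle q q' (bd p)
      linarith)
    constructor <;> linarith
  · intro x x' q
    rw [abs_le]
    have h1 := ext_le_add hn bd x' x q q (angle (x : E n) (x' : E n)) (fun p => by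
      have := angle_le_angle_add_angle (x' : E n) (x : E n) (p : E n)
      rw [angle_comm (x' : E n) (x : E n)] at this
      linarith)
    have h2 := ext_le_add hn bd x x' q q (angle (x : E n) (x' : E n)) (fun p => by
      have := angle_le_angle_add_angle (x : E n) (x' : E n) (p : E n)
      linarith)
    constructor <;> linarith
  · intro x p
    apply le_antisymm
    · have h := ciInf_le (bdd bd x (bd p)) p
      rw [dist_self, add_zero] at h
      exact h
    · have := sph_nonempty hn
      unfold ext
      apply le_ciInf
      intro p'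
      have h1 := angle_le_angle_add_angle (x : E n) (p' : E n) (p : E n)
      have h2 := hns p' p
      rw [dist_comm] at h2
      linarith

end Pool.Agent.H241R3.FV
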