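import Pool.Agent.H241R3.FV.Stmts

set_option autoImplicit false

open MeasureTheory Metric Set Filter Topology InnerProductGeometry

namespace Pool.Agent.H241R3.FV.TLoc

open Pool.Agent.H241R3.FV

lemma sqrt_le_add {a b c : ℝ} (h : a ≤ b + c) : √a ≤ √b + √c := by
  have hb : b ≤ √b ^ 2 := by
    rcases le_or_gt 0 b with hb | hb
    · rw [Real.sq_sqrt hb]
    · nlinarith [sq_nonneg (√b)]
  have hc : c ≤ √c ^ 2 := by
    rcases le_or_gt 0 c with hc | hc
    · rw [Real.sq_sqrt hc]
    · nlinarith [sq_nonneg (√c)]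
  have h1 : 0 ≤ √b := Real.sqrt_nonneg b
  have h2 : 0 ≤ √c := Real.sqrt_nonneg c
  rw [Real.sqrt_le_left (by positivity)]
  nlinarith [mul_nonneg h1 h2]

lemma gnorm_neg {n : ℕ} (G : Matrix (Fin n) (Fin n) ℝ) (v : E n) : gnorm G (-v) = gnorm G v := by
  unfold gnorm
  congr 1
  refine Finset.sum_congr rfl fun i _ => Finset.sum_congr rfl fun j _ => ?_
  simp

lemma gnorm_le {n : ℕ} (G H : Matrix (Fin n) (Fin n) ℝ) (η : ℝ) (hη : 0 ≤ η)
    (h : ∀ i j, |G i j - H i j| ≤ η ^ 2) (v : E n) :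
    gnorm G v ≤ gnorm H v + n * η * ‖v‖ := by
  have hv : ∀ i, |v i| ≤ ‖v‖ := fun i => by
    simpa using PiLp.norm_apply_le v i
  have hsum : ∑ i, ∑ j, v i * G i j * v j ≤
      ∑ i, ∑ j, v i * H i j * v j + (n * η * ‖v‖) ^ 2 := by
    have h1 : ∀ i j, v i * G i j * v j ≤ v i * H i j * v j + (η * ‖v‖) ^ 2 := by
      intro i j
      have h2 : v i * (G i j - H i j) * v j ≤ |v i| * |G i j - H i j| * |v j| := by
        rw [← abs_mul, ← abs_mul]
        exact le_abs_self _
      have h3 : |v i| * |G i j - H i j| * |v j| ≤ ‖v‖ * η ^ 2 * ‖v‖ := by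
        gcongr
        · exact hv i
        · exact h i j
        · exact hv j
      nlinarith
    calc ∑ i, ∑ j, v i * G i j * v j
        ≤ ∑ i : Fin n, ∑ j : Fin n, (v i * H i j * v j + (η * ‖v‖) ^ 2) :=
          Finset.sum_le_sum fun i _ => Finset.sum_le_sum fun j _ => h1 i j
      _ = ∑ i, ∑ j, v i * H i j * v j + (n * η * ‖v‖) ^ 2 := by
          simp only [Finset.sum_add_distrib, Finset.sum_const, Finset.card_univ, Fintype.card_fin,
            nsmul_eq_mul]
          ring
  have := sqrt_le_add hsum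
  rw [Real.sqrt_sq (by positivity)] at this
  exact this

theorem taskLoc : Pool.Agent.H241R3.FV.TaskLoc := by
  intro n M _ C p hp ε hε
  set η : ℝ := ε / (n + 1) with hηdef
  have hη : 0 < η := by positivity
  have hnη : n * η ≤ ε := by
    rw [hηdef, mul_div_assoc', div_le_iff₀ (by positivity)]
    nlinarith
  have hU : C.U ∈ 𝓝 p := C.isOpen_U.mem_nhds hp
  have hcont : ContinuousAt C.G p := C.cont_G.continuousAt hU
  have hev : ∀ᶠ q in 𝓝 p, ∀ i j, |C.G q i j - C.G p i j| ≤ η ^ 2 := by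
    refine Filter.eventually_all.2 fun i => Filter.eventually_all.2 fun j => ?_
    have hij : ContinuousAt (fun q => C.G q i j) p := by
      have := (continuous_id.matrix_elem i j : Continuous fun A : Matrix (Fin n) (Fin n) ℝ => A i j)
      exact this.continuousAt.comp hcont
    have := Metric.tendsto_nhds.1 hij (η ^ 2) (by positivity)
    filter_upwards [this] with q hq
    rw [Real.dist_eq] at hq
    exact hq.le
  obtain ⟨r, hr, hball⟩ := Metric.mem_nhds_iff.1 (Filter.inter_mem hU hev)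
  refine ⟨r, hr, fun q hq => (hball hq).1, fun y hy z hz => ?_⟩
  have hseg : segment ℝ y z ⊆ ball p r := (convex_ball p r).segment_subset hy hz
  have h1 := C.dist_le y z (hseg.trans fun q hq => (hball hq).1)
  have hK : ∀ t ∈ Set.uIoc (0 : ℝ) 1,
      ‖gnorm (C.G (y + t • (z - y))) (z - y)‖ ≤ gnorm (C.G p) (y - z) + ε * ‖y - z‖ := by
    intro t ht
    rw [Set.uIoc_of_le zero_le_one] at ht
    have hmem : y + t • (z - y) ∈ segment ℝ y z := by
      rw [segment_eq_image']
      exact ⟨t, ⟨ht.1.le, ht.2⟩, rfl⟩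
    have h2 := (hball (hseg hmem)).2
    have h3 := gnorm_le (C.G (y + t • (z - y))) (C.G p) η hη.le h2 (z - y)
    have h4 : gnorm (C.G p) (z - y) = gnorm (C.G p) (y - z) := by
      rw [← neg_sub, gnorm_neg]
    rw [h4, norm_sub_rev] at h3
    have h6 : 0 ≤ gnorm (C.G (y + t • (z - y))) (z - y) := Real.sqrt_nonneg _
    rw [Real.norm_of_nonneg h6]
    refine h3.trans ?_
    gcongr
  have h5 := intervalIntegral.norm_integral_le_of_norm_le_const hK
  rw [sub_zero, abs_one, mul_one] at h5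
  exact h1.trans ((le_abs_self _).trans (by simpa [Real.norm_eq_abs] using h5))

end Pool.Agent.H241R3.FV.TLoc
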