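import Pool.Agent.H241R3.FV.Stmts

/-! `TaskMat`: polar decomposition and the inequality of the means (helper662). -/

set_option autoImplicit false

namespace Pool.Agent.H241R3.FV.TMat

open Matrix
open scoped MatrixOrder

theorem amgm {n : ℕ} (hn : 0 < n) (P : Matrix (Fin n) (Fin n) ℝ) (hP : P.PosSemidef) (c : ℝ)
    (h : P.trace ≤ n * c) : P.det ≤ c ^ n := by
  have hn' : (0 : ℝ) < n := by exact_mod_cast hn
  have h1 := hP.isHermitian.det_eq_prod_eigenvalues
  have h2 := hP.isHermitian.trace_eq_sum_eigenvalues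
  simp only [RCLike.ofReal_real_eq_id, id_eq] at h1 h2
  have hnn : ∀ i, 0 ≤ hP.isHermitian.eigenvalues i := hP.eigenvalues_nonneg
  have h3 := Real.geom_mean_le_arith_mean Finset.univ (fun _ : Fin n => (1 : ℝ))
    hP.isHermitian.eigenvalues (fun _ _ => zero_le_one) (by simpa using hn) (fun i _ => hnn i)
  simp only [Real.rpow_one, Finset.sum_const, Finset.card_univ, Fintype.card_fin, nsmul_eq_mul,
    mul_one, one_mul] at h3
  rw [← h1, ← h2] at h3
  have hd : 0 ≤ P.det := by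
    rw [h1]
    exact Finset.prod_nonneg fun i _ => hnn i
  have h4 : P.det ^ ((n : ℝ)⁻¹) ≤ c := by
    refine h3.trans ?_
    rw [div_le_iff₀ hn']
    linarith
  calc P.det = (P.det ^ ((n : ℝ)⁻¹)) ^ n := (Real.rpow_inv_natCast_pow hd hn.ne').symm
    _ ≤ c ^ n := pow_le_pow_left₀ (Real.rpow_nonneg hd _) h4 n

theorem taskMat : TaskMat := by
  intro n hn L G hG c hc h
  by_cases hL : L.det = 0
  · rw [hL, abs_zero]
    positivity
  obtain ⟨S, hS⟩ := CStarAlgebra.nonneg_iff_eq_star_mul_self.mp hG.posSemidef.nonneg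
  rw [star_eq_conjTranspose, conjTranspose_eq_transpose_of_trivial] at hS
  have hSd : S.det ^ 2 = G.det := by
    rw [hS, det_mul, det_transpose, sq]
  have hGd := hG.det_pos
  have hS0 : S.det ≠ 0 := by
    intro h0
    rw [h0] at hSd
    rw [← hSd] at hGd
    simp at hGd
  have hSu : IsUnit S.det := isUnit_iff_ne_zero.2 hS0
  have hLu : IsUnit L.det := isUnit_iff_ne_zero.2 hL
  set B := L * S⁻¹ with hB
  have hBS : L = B * S := by
    rw [hB, Matrix.mul_assoc, nonsing_inv_mul _ hSu, Matrix.mul_one]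
  have hBd : B.det ≠ 0 := by
    intro h0
    apply hL
    rw [hBS, det_mul, h0, zero_mul]
  have hBu : IsUnit B.det := isUnit_iff_ne_zero.2 hBd
  have hBB : (Bᵀ * B).PosSemidef := by
    have := posSemidef_conjTranspose_mul_self B
    rwa [conjTranspose_eq_transpose_of_trivial] at this
  set P := CFC.sqrt (Bᵀ * B) with hP
  have hPs : P.PosSemidef := (CFC.sqrt_nonneg _).posSemidef
  have hPP : P * P = Bᵀ * B := CFC.sqrt_mul_sqrt_self _ hBB.nonneg
  have hPt : Pᵀ = P := by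
    have := hPs.isHermitian
    rwa [IsHermitian, conjTranspose_eq_transpose_of_trivial] at this
  have hPd : P.det = |B.det| := by
    have h1 : P.det ^ 2 = |B.det| ^ 2 := by
      rw [sq_abs, sq, ← det_mul, hPP, det_mul, det_transpose, sq]
    exact (sq_eq_sq₀ hPs.det_nonneg (abs_nonneg _)).1 h1
  -- the orthogonal matrix
  have hU : (S⁻¹ * (P * B⁻¹))ᵀ * G * (S⁻¹ * (P * B⁻¹)) = 1 := by
    rw [hS, transpose_mul, transpose_mul, hPt]
    have e : B⁻¹ᵀ * P * S⁻¹ᵀ * (Sᵀ * S) * (S⁻¹ * (P * B⁻¹)) =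
        B⁻¹ᵀ * P * (S⁻¹ᵀ * Sᵀ) * (S * S⁻¹) * P * B⁻¹ := by
      simp only [Matrix.mul_assoc]
    rw [e, ← transpose_mul, mul_nonsing_inv _ hSu, transpose_one, Matrix.mul_one, Matrix.mul_one,
      Matrix.mul_assoc B⁻¹ᵀ, hPP]
    have e2 : B⁻¹ᵀ * (Bᵀ * B) * B⁻¹ = (B⁻¹ᵀ * Bᵀ) * (B * B⁻¹) := by
      simp only [Matrix.mul_assoc]
    rw [e2, ← transpose_mul, mul_nonsing_inv _ hBu, transpose_one, Matrix.mul_one]
  have htr : (L * (S⁻¹ * (P * B⁻¹))).trace = P.trace := by
    have e : L * (S⁻¹ * (P * B⁻¹)) = B * (P * B⁻¹) := by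
      rw [hB, Matrix.mul_assoc]
    rw [e, trace_mul_comm, Matrix.mul_assoc, nonsing_inv_mul _ hBu, Matrix.mul_one]
  have h5 := h _ hU
  rw [htr] at h5
  have h6 := amgm hn P hPs c h5
  rw [hPd] at h6
  have h7 : |S.det| = √G.det := by
    rw [← hSd, Real.sqrt_sq_eq_abs]
  rw [hBS, det_mul, abs_mul, h7]
  exact mul_le_mul_of_nonneg_right h6 (Real.sqrt_nonneg _)

end Pool.Agent.H241R3.FV.TMat
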