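import Mathlib

/-!
# MP_aeade1_gt: an explicit lower bound for the volume of all fillings of the round sphere

Definitions and statements of the tasks.  `n = d + 1` is the dimension of the filling.
-/

set_option autoImplicit false

open MeasureTheory Metric Set Filter Topology InnerProductGeometry

namespace Pool.Agent.H241R3.FV

/-- Euclidean space. -/
abbrev E (n : ℕ) : Type := EuclideanSpace ℝ (Fin n)

/-- The unit sphere of `E n`; for `n = d + 1` this is `S^d`. -/
abbrev Sph (n : ℕ) : Type := sphere (0 : E n) 1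

/-- The length of `v` for the symmetric matrix `G`. -/
noncomputable def gnorm {n : ℕ} (G : Matrix (Fin n) (Fin n) ℝ) (v : E n) : ℝ :=
  √(∑ i, ∑ j, v i * G i j * v j)

/-- A Riemannian chart of a metric space `M`: an open set `U` of `ℝ^n`, a map `U → M`, a continuous
field `G` of positive definite matrices on `U` such that the distance in `M` is at most the
Riemannian length of straight segments, and a measurable part `D` of `U`, the part of the chart
that is used in the computation of the volume. -/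
structure RChart (n : ℕ) (M : Type) [MetricSpace M] where
  /-- domain of the chart -/
  U : Set (E n)
  isOpen_U : IsOpen U
  /-- the part of the domain used for the volume -/
  D : Set (E n)
  meas_D : MeasurableSet D
  D_sub : D ⊆ U
  /-- the parametrisation -/
  map : E n → M
  /-- the metric tensor -/
  G : E n → Matrix (Fin n) (Fin n) ℝ
  cont_G : ContinuousOn G U
  pos_G : ∀ p ∈ U, (G p).PosDef
  dist_le : ∀ x y : E n, segment ℝ x y ⊆ U →
    dist (map x) (map y) ≤ ∫ t in (0 : ℝ)..1, gnorm (G (x + t • (y - x))) (y - x)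

/-- A filling of the sphere `S^d`: a metric space `M` with countably many Riemannian charts of
dimension `d + 1` and a map `bd : S^d → M` (the boundary), such that `M` is the union of the
boundary and of the parts `D` of the charts, and such that no continuous map `M → S^d` is the
identity on the boundary. -/
structure Filling (d : ℕ) (M : Type) [MetricSpace M] where
  /-- index set of the charts -/
  ι : Type
  countable : Countable ι
  /-- the charts -/
  chart : ι → RChart (d + 1) M
  /-- the boundary sphere -/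
  bd : Sph (d + 1) → M
  cover : ∀ q : M, (∃ x, bd x = q) ∨ ∃ i, ∃ p ∈ (chart i).D, (chart i).map p = q
  noRetraction : ¬ ∃ r : M → Sph (d + 1), Continuous r ∧ ∀ x, r (bd x) = x

/-- The volume: the sum over the charts of the integrals of `√(det G)` over the parts `D`. -/
noncomputable def Filling.vol {d : ℕ} {M : Type} [MetricSpace M] (S : Filling d M) : ENNReal :=
  ∑' i, ∫⁻ p in (S.chart i).D, ENNReal.ofReal √((S.chart i).G p).det

/-- The filling is nonshortcutting. -/
def Filling.NonShort {d : ℕ} {M : Type} [MetricSpace M] (S : Filling d M) : Prop :=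
  ∀ x y : Sph (d + 1), angle (x : E (d + 1)) (y : E (d + 1)) ≤ dist (S.bd x) (S.bd y)

/-! ### Auxiliary definitions -/

/-- surface measure of the unit sphere -/
noncomputable def sig (n : ℕ) : Measure (Sph n) := (volume : Measure (E n)).toSphere

/-- the action of a linear isometry on the sphere -/
noncomputable def rot {n : ℕ} (R : E n ≃ₗᵢ[ℝ] E n) (x : Sph n) : Sph n :=
  ⟨R (x : E n), by
    have hx : ‖(x : E n)‖ = 1 := by simpa using x.2
    simp [hx]⟩

/-- volume of the unit ball, as a real number -/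
noncomputable def om (n : ℕ) : ℝ := (volume : Measure (E n)).real (ball 0 1)

/-- the matrix `A` acting on a vector -/
noncomputable def act {n : ℕ} (A : Matrix (Fin n) (Fin n) ℝ) (v : E n) : E n :=
  WithLp.toLp 2 (fun i => ∑ j, A i j * v j)

/-- the matrix of a continuous linear map -/
noncomputable def mat {n : ℕ} (L : E n →L[ℝ] E n) : Matrix (Fin n) (Fin n) ℝ :=
  fun i j => (L (EuclideanSpace.single j 1)) i

/-- the mean direction of the distance function of the sphere -/
noncomputable def lam (n : ℕ) : ℝ :=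
  om (n - 1) * ∫ t in (0 : ℝ)..Real.pi, Real.sin t ^ (n - 1)

/-- The extension of the distance function of the sphere to `M`. -/
noncomputable def ext {n : ℕ} {M : Type} [MetricSpace M] (bd : Sph n → M) (x : Sph n) (q : M) : ℝ :=
  ⨅ p : Sph n, (angle (x : E n) (p : E n) + dist q (bd p))

/-! ### Tasks -/

/-- Linear algebra: polar decomposition and the inequality of the means. -/
def TaskMat : Prop :=
  ∀ (n : ℕ), 0 < n → ∀ (L G : Matrix (Fin n) (Fin n) ℝ), G.PosDef → ∀ c : ℝ, 0 ≤ c →
    (∀ A : Matrix (Fin n) (Fin n) ℝ, A.transpose * G * A = 1 → (L * A).trace ≤ n * c) →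
    |L.det| ≤ c ^ n * √G.det

/-- The extension of the distance functions. -/
def TaskExt : Prop :=
  ∀ (n : ℕ), 0 < n → ∀ (M : Type) [MetricSpace M] (bd : Sph n → M),
    (∀ x y : Sph n, angle (x : E n) (y : E n) ≤ dist (bd x) (bd y)) →
    (∀ x q q', |ext bd x q - ext bd x q'| ≤ dist q q') ∧
    (∀ x x' q, |ext bd x q - ext bd x' q| ≤ angle (x : E n) (x' : E n)) ∧
    (∀ x p, ext bd x (bd p) = angle (x : E n) (p : E n))

/-- The surface measure is invariant under isometries. -/
def TaskInv : Prop :=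
  ∀ (n : ℕ), 0 < n → ∀ (R : E n ≃ₗᵢ[ℝ] E n), MeasurePreserving (rot R) (sig n) (sig n)

/-- Integral of a function of the polar angle. -/
def TaskPolar : Prop :=
  ∀ (d : ℕ), 1 ≤ d → ∀ h : ℝ → ℝ, Continuous h →
    ∫ x : Sph (d + 1), h (angle (x : E (d + 1)) (EuclideanSpace.single 0 1)) ∂(sig (d + 1)) =
      d * om d * ∫ t in (0 : ℝ)..Real.pi, h t * Real.sin t ^ (d - 1)

/-- The boundary values. -/
def TaskBdry : Prop :=
  TaskInv → TaskPolar → ∀ (d : ℕ), 1 ≤ d → ∀ p : Sph (d + 1),
    ∫ x : Sph (d + 1), angle (x : E (d + 1)) (p : E (d + 1)) • (x : E (d + 1)) ∂(sig (d + 1)) =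
      -(lam (d + 1)) • (p : E (d + 1))

/-- The volume of the unit ball. -/
def TaskConst : Prop :=
  TaskPolar → ∀ (d : ℕ), 1 ≤ d →
    0 < om (d + 1) ∧ 0 < lam (d + 1) ∧ (sig (d + 1)).real univ = (d + 1 : ℕ) * om (d + 1) ∧
    lam (d + 1) / om (d + 1) =
      (∫ t in (0 : ℝ)..Real.pi, Real.sin t ^ d) / ∫ t in (0 : ℝ)..Real.pi, Real.sin t ^ (d + 1)

/-- A map into the Euclidean space which is the multiplication by `l` on the boundary covers the
ball of radius `l`. -/
def TaskCover : Prop :=
  ∀ (n : ℕ), 0 < n → ∀ (M : Type) [MetricSpace M] (bd : Sph n → M),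
    (¬ ∃ r : M → Sph n, Continuous r ∧ ∀ x, r (bd x) = x) →
    ∀ (Φ : M → E n) (l : ℝ), 0 < l → Continuous Φ → (∀ x, Φ (bd x) = l • (x : E n)) →
      ball (0 : E n) l ⊆ range Φ

/-- Local form of the comparison of the distance with the Riemannian metric. -/
def TaskLoc : Prop :=
  ∀ (n : ℕ) (M : Type) [MetricSpace M] (C : RChart n M), ∀ p ∈ C.U, ∀ ε : ℝ, 0 < ε →
    ∃ r : ℝ, 0 < r ∧ ball p r ⊆ C.U ∧ ∀ y ∈ ball p r, ∀ z ∈ ball p r,
      dist (C.map y) (C.map z) ≤ gnorm (C.G p) (y - z) + ε * ‖y - z‖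

/-- Differentiation under the integral sign. -/
def TaskDiff : Prop :=
  ∀ (n : ℕ), 0 < n → ∀ (U : Set (E n)), IsOpen U → ∀ (G : E n → Matrix (Fin n) (Fin n) ℝ)
    (F : Sph n → E n → ℝ),
    (∀ p ∈ U, ∀ ε : ℝ, 0 < ε → ∃ r : ℝ, 0 < r ∧ ball p r ⊆ U ∧ ∀ x, ∀ y ∈ ball p r,
      ∀ z ∈ ball p r, |F x y - F x z| ≤ gnorm (G p) (y - z) + ε * ‖y - z‖) →
    (∀ x x', ∀ p ∈ U, |F x p - F x' p| ≤ angle (x : E n) (x' : E n)) →
    ∀ᵐ p ∂(volume : Measure (E n)), p ∈ U → ∃ L : E n →L[ℝ] E n,
      HasFDerivAt (fun q => ∫ x : Sph n, F x q • (x : E n) ∂(sig n)) L p ∧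
      ∀ A : Matrix (Fin n) (Fin n) ℝ,
        (mat L * A).trace ≤ ∫ x : Sph n, gnorm (G p) (act A (x : E n)) ∂(sig n)

/-- Locally Lipschitz maps do not increase null sets. -/
def TaskNull : Prop :=
  ∀ (n : ℕ) (U : Set (E n)) (Ψ : E n → E n),
    (∀ p ∈ U, ∃ r : ℝ, 0 < r ∧ ∃ K : ℝ, ∀ y ∈ ball p r, ∀ z ∈ ball p r,
      ‖Ψ y - Ψ z‖ ≤ K * ‖y - z‖) →
    ∀ s ⊆ U, volume s = 0 → volume (Ψ '' s) = 0

/-- The main statement. -/
def Main : Prop :=
  ∀ (d : ℕ), 1 ≤ d → ∀ (M : Type) [MetricSpace M] (S : Filling d M), S.NonShort →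
    volume (ball (0 : E (d + 1)) 1) * ENNReal.ofReal
      (((∫ t in (0 : ℝ)..Real.pi, Real.sin t ^ d) /
        ∫ t in (0 : ℝ)..Real.pi, Real.sin t ^ (d + 1)) ^ (d + 1)) ≤ S.vol

end Pool.Agent.H241R3.FV
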