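import Mathlib
import Pool.Agent.H241R3.FV.Stmts

set_option autoImplicit false

open MeasureTheory Metric Set Filter Topology

namespace Pool.Agent.H241R3.FV.TNull

theorem taskNull : TaskNull := by
  intro n U Ψ hΨ s hsU hs
  have hfin : Module.finrank ℝ (E n) = n := by simp
  have hH : (μH[(n : ℝ)] : Measure (E n)).IsAddHaarMeasure := by
    have h := MeasureTheory.isAddHaarMeasure_hausdorffMeasure (E := E n)
    rw [hfin] at h
    exact h
  have hac1 : (μH[(n : ℝ)] : Measure (E n)) ≪ (volume : Measure (E n)) :=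
    Measure.absolutelyContinuous_isAddHaarMeasure _ _
  have hac2 : (volume : Measure (E n)) ≪ (μH[(n : ℝ)] : Measure (E n)) :=
    Measure.absolutelyContinuous_isAddHaarMeasure _ _
  have hs' : (μH[(n : ℝ)] : Measure (E n)) s = 0 := hac1 hs
  apply hac2
  have key : (OuterMeasure.comap Ψ (μH[(n : ℝ)] : Measure (E n)).toOuterMeasure) s = 0 := by
    apply MeasureTheory.measure_null_of_locally_null
    intro p hp
    obtain ⟨r, hr, K, hK⟩ := hΨ p (hsU hp)
    refine ⟨s ∩ ball p r, inter_mem_nhdsWithin _ (ball_mem_nhds _ hr), ?_⟩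
    rw [OuterMeasure.comap_apply]
    have hL : LipschitzOnWith (Real.toNNReal K) Ψ (s ∩ ball p r) := by
      refine LipschitzOnWith.of_dist_le_mul fun y hy z hz => ?_
      rw [dist_eq_norm, dist_eq_norm]
      refine (hK y hy.2 z hz.2).trans ?_
      exact mul_le_mul_of_nonneg_right (Real.le_coe_toNNReal K) (norm_nonneg _)
    have h1 := hL.hausdorffMeasure_image_le (d := (n : ℝ)) (Nat.cast_nonneg n)
    have h2 : (μH[(n : ℝ)] : Measure (E n)) (s ∩ ball p r) = 0 :=
      measure_mono_null inter_subset_left hs'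
    rw [h2, mul_zero] at h1
    exact nonpos_iff_eq_zero.mp h1
  rwa [OuterMeasure.comap_apply] at key

end Pool.Agent.H241R3.FV.TNull
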