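import Pool.Agent.H241R3.FV.Stmts

/-! TaskPolar of project H241-FV: integral of a function of the polar angle over the sphere. -/

set_option autoImplicit false

open MeasureTheory Metric Set Filter Topology InnerProductGeometry

namespace Pool.Agent.H241R3.FV.TPolar

open Pool.Agent.H241R3.FV

/-- the cut-off -/
noncomputable def phi (r : ℝ) : ℝ := if r < 1 then 1 else 0

theorem phi_meas : Measurable phi :=
  Measurable.ite measurableSet_Iio measurable_const measurable_const

theorem phi_nonneg (r : ℝ) : 0 ≤ phi r := by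
  unfold phi
  split_ifs <;> norm_num

theorem phi_le (r : ℝ) : phi r ≤ 1 := by
  unfold phi
  split_ifs <;> norm_num

/-- Step A: polar coordinates of the space -/
theorem stepA (d : ℕ) (F : ℝ → ℝ) :
    ∫ x : E (d + 1), F (x 0 / ‖x‖) * phi ‖x‖ =
      (∫ x : Sph (d + 1), F ((x : E (d + 1)) 0) ∂(sig (d + 1))) *
        ∫ y in Ioi (0 : ℝ), y ^ d * phi y := by
  have hdim : Module.finrank ℝ (E (d + 1)) = d + 1 := by simp [E]
  set f : E (d + 1) → ℝ := fun x => F (x 0 / ‖x‖) * phi ‖x‖ with hf
  calc ∫ x : E (d + 1), f x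
      = ∫ x : ({(0 : E (d + 1))}ᶜ : Set (E (d + 1))), f x.1 ∂((volume : Measure (E (d + 1))).comap (↑)) := by
        rw [integral_subtype_comap (measurableSet_singleton _).compl f,
          restrict_compl_singleton]
    _ = ∫ p, (F ((p.1 : E (d + 1)) 0)) * (phi (p.2 : ℝ))
          ∂((volume : Measure (E (d + 1))).toSphere.prod
            (.volumeIoiPow (Module.finrank ℝ (E (d + 1)) - 1))) := by
        have h := (volume : Measure (E (d + 1))).measurePreserving_homeomorphUnitSphereProd.integral_comp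
          (Homeomorph.measurableEmbedding _)
          (fun p : (sphere (0 : E (d + 1)) 1) × (Ioi (0 : ℝ)) =>
            (F ((p.1 : E (d + 1)) 0)) * (phi (p.2 : ℝ)))
        rw [← h]
        apply integral_congr_ae
        filter_upwards with x
        simp only [hf, homeomorphUnitSphereProd_apply_snd_coe,
          homeomorphUnitSphereProd_apply_fst_coe]
        congr 2
        simp [div_eq_inv_mul]
    _ = (∫ x : Sph (d + 1), F ((x : E (d + 1)) 0) ∂(sig (d + 1))) *
          ∫ y : Ioi (0 : ℝ), phi (y : ℝ) ∂(.volumeIoiPow (Module.finrank ℝ (E (d + 1)) - 1)) := by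
        rw [integral_prod_mul (fun x : sphere (0 : E (d + 1)) 1 => F ((x : E (d + 1)) 0))
          (fun y : Ioi (0 : ℝ) => phi (y : ℝ))]
        rfl
    _ = _ := by
        congr 1
        simp only [Measure.volumeIoiPow, ENNReal.ofReal]
        rw [integral_withDensity_eq_integral_smul,
          integral_subtype_comap measurableSet_Ioi
            fun a ↦ Real.toNNReal (a ^ (Module.finrank ℝ (E (d + 1)) - 1)) • phi a,
          setIntegral_congr_fun measurableSet_Ioi fun x hx ↦ ?_]
        · rw [NNReal.smul_def, Real.coe_toNNReal _ (pow_nonneg hx.out.le _), hdim]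
          rfl
        · exact (measurable_subtype_coe.pow_const _).real_toNNReal

/-- the function of two variables -/
noncomputable def GG (F : ℝ → ℝ) (a s : ℝ) : ℝ :=
  F (a / √(a ^ 2 + s ^ 2)) * phi √(a ^ 2 + s ^ 2)

theorem GG_bound {F : ℝ → ℝ} {C : ℝ} (hC : ∀ c, |F c| ≤ C) (a s : ℝ) : |GG F a s| ≤ C := by
  unfold GG
  rw [abs_mul, abs_of_nonneg (phi_nonneg _)]
  have h1 := hC (a / √(a ^ 2 + s ^ 2))
  have h2 := phi_le √(a ^ 2 + s ^ 2)
  have h3 := phi_nonneg √(a ^ 2 + s ^ 2)
  have h4 := abs_nonneg (F (a / √(a ^ 2 + s ^ 2)))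
  nlinarith

theorem GG_zero {F : ℝ → ℝ} (a s : ℝ) (h : 1 ≤ a ^ 2 + s ^ 2) : GG F a s = 0 := by
  unfold GG phi
  rw [if_neg, mul_zero]
  rw [not_lt, Real.one_le_sqrt]
  exact h

theorem GG_meas {F : ℝ → ℝ} (hF : Measurable F) :
    Measurable (fun p : ℝ × ℝ => GG F p.1 p.2) := by
  unfold GG
  apply Measurable.mul
  · apply hF.comp
    fun_prop
  · apply phi_meas.comp
    fun_prop

/-- integrability on the product -/
theorem int_prod (d : ℕ) {F : ℝ → ℝ} (hF : Measurable F) {C : ℝ} (hC : ∀ c, |F c| ≤ C) :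
    Integrable (fun p : ℝ × (Fin d → ℝ) => GG F p.1 (√(∑ i, p.2 i ^ 2))) := by
  have hC0 : 0 ≤ C := (abs_nonneg _).trans (hC 0)
  set B : Set (ℝ × (Fin d → ℝ)) := closedBall 0 1 with hB
  have hBm : MeasurableSet B := isClosed_closedBall.measurableSet
  have hBf : volume B < ⊤ := measure_closedBall_lt_top
  have hint : Integrable (B.indicator fun _ => C) := by
    rw [integrable_indicator_iff hBm]
    exact integrableOn_const hBf.ne
  refine hint.mono' ?_ ?_
  · apply Measurable.aestronglyMeasurable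
    have h := (GG_meas hF).comp (show Measurable (fun p : ℝ × (Fin d → ℝ) =>
      (p.1, √(∑ i, p.2 i ^ 2))) by fun_prop)
    exact h
  · filter_upwards with p
    rw [Real.norm_eq_abs]
    by_cases hp : p ∈ B
    · rw [indicator_of_mem hp]
      exact GG_bound hC _ _
    · rw [indicator_of_notMem hp]
      rw [GG_zero, abs_zero]
      by_contra hcon
      push Not at hcon
      apply hp
      rw [hB, mem_closedBall, dist_zero_right]
      have hs : √(∑ i, p.2 i ^ 2) ^ 2 = ∑ i, p.2 i ^ 2 :=
        Real.sq_sqrt (Finset.sum_nonneg (fun _ _ => sq_nonneg _))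
      rw [hs] at hcon
      rw [Prod.norm_def]
      apply max_le
      · rw [Real.norm_eq_abs, abs_le_one_iff_mul_self_le_one]
        have := Finset.sum_nonneg (fun i (_ : i ∈ Finset.univ) => sq_nonneg (p.2 i))
        nlinarith
      · rw [pi_norm_le_iff_of_nonneg (by norm_num)]
        intro i
        rw [Real.norm_eq_abs, abs_le_one_iff_mul_self_le_one]
        have h1 := Finset.single_le_sum (fun i (_ : i ∈ Finset.univ) => sq_nonneg (p.2 i))
          (Finset.mem_univ i)
        have h2 := sq_nonneg p.1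
        nlinarith

/-- Step B: splitting of the first coordinate -/
theorem stepB (d : ℕ) {F : ℝ → ℝ} (hF : Measurable F) {C : ℝ} (hC : ∀ c, |F c| ≤ C) :
    ∫ x : E (d + 1), F (x 0 / ‖x‖) * phi ‖x‖ = ∫ a : ℝ, ∫ y : E d, GG F a ‖y‖ := by
  have h1 : ∫ x : E (d + 1), F (x 0 / ‖x‖) * phi ‖x‖ =
      ∫ z : Fin (d + 1) → ℝ, (fun x : E (d + 1) => F (x 0 / ‖x‖) * phi ‖x‖) (WithLp.toLp 2 z) :=
    ((PiLp.volume_preserving_toLp (Fin (d + 1))).integral_comp
      (MeasurableEquiv.toLp 2 (Fin (d + 1) → ℝ)).measurableEmbedding _).symm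
  rw [h1]
  have h2 := ((volume_preserving_piFinSuccAbove (fun _ : Fin (d + 1) => ℝ) 0).symm).integral_comp
    (MeasurableEquiv.piFinSuccAbove (fun _ : Fin (d + 1) => ℝ) 0).symm.measurableEmbedding
    (fun z : Fin (d + 1) → ℝ =>
      (fun x : E (d + 1) => F (x 0 / ‖x‖) * phi ‖x‖) (WithLp.toLp 2 z))
  rw [← h2]
  have h3 : ∀ p : ℝ × (Fin d → ℝ), (fun z : Fin (d + 1) → ℝ =>
      (fun x : E (d + 1) => F (x 0 / ‖x‖) * phi ‖x‖) (WithLp.toLp 2 z))
        ((MeasurableEquiv.piFinSuccAbove (fun _ : Fin (d + 1) => ℝ) 0).symm p) =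
      GG F p.1 (√(∑ i, p.2 i ^ 2)) := by
    intro p
    have hs : √(∑ i, p.2 i ^ 2) ^ 2 = ∑ i, p.2 i ^ 2 :=
      Real.sq_sqrt (Finset.sum_nonneg (fun _ _ => sq_nonneg _))
    have hn : ‖(WithLp.toLp 2 ((MeasurableEquiv.piFinSuccAbove (fun _ : Fin (d + 1) => ℝ) 0).symm p) :
        E (d + 1))‖ = √(p.1 ^ 2 + √(∑ i, p.2 i ^ 2) ^ 2) := by
      rw [hs, EuclideanSpace.norm_eq, Fin.sum_univ_succ]
      simp [MeasurableEquiv.piFinSuccAbove]
    unfold GG
    simp only
    rw [hn]
    congr 2
  rw [integral_congr_ae (Filter.Eventually.of_forall h3)]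
  rw [Measure.volume_eq_prod]
  rw [integral_prod _ (by
    rw [← Measure.volume_eq_prod]
    exact int_prod d hF hC)]
  congr 1
  ext a
  have h4 := (PiLp.volume_preserving_toLp (Fin d)).integral_comp
      (MeasurableEquiv.toLp 2 (Fin d → ℝ)).measurableEmbedding (fun y : E d => GG F a ‖y‖)
  rw [← h4]
  congr 1
  ext y
  simp only
  rw [EuclideanSpace.norm_eq]
  simp

/-- the planar function -/
noncomputable def KK (d : ℕ) (F : ℝ → ℝ) (p : ℝ × ℝ) : ℝ :=
  if 0 < p.2 then p.2 ^ (d - 1) * GG F p.1 p.2 else 0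

theorem KK_int (d : ℕ) {F : ℝ → ℝ} (hF : Measurable F) {C : ℝ} (hC : ∀ c, |F c| ≤ C) :
    Integrable (KK d F) := by
  have hC0 : 0 ≤ C := (abs_nonneg _).trans (hC 0)
  set B : Set (ℝ × ℝ) := closedBall 0 1 with hB
  have hBm : MeasurableSet B := isClosed_closedBall.measurableSet
  have hBf : volume B < ⊤ := measure_closedBall_lt_top
  have hint : Integrable (B.indicator fun _ => C) := by
    rw [integrable_indicator_iff hBm]
    exact integrableOn_const hBf.ne
  refine hint.mono' ?_ ?_
  · apply Measurable.aestronglyMeasurable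
    unfold KK
    apply Measurable.ite (measurableSet_lt measurable_const measurable_snd) _ measurable_const
    exact (measurable_snd.pow_const _).mul (GG_meas hF)
  · filter_upwards with p
    rw [Real.norm_eq_abs]
    by_cases hp : p ∈ B
    · rw [indicator_of_mem hp]
      unfold KK
      split_ifs with h0
      · rw [hB, mem_closedBall, dist_zero_right, Prod.norm_def] at hp
        have h2 : |p.2| ≤ 1 := (le_max_right _ _).trans hp
        rw [abs_mul, abs_pow]
        calc |p.2| ^ (d - 1) * |GG F p.1 p.2| ≤ 1 * C :=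
              mul_le_mul (pow_le_one₀ (abs_nonneg _) h2) (GG_bound hC _ _) (abs_nonneg _)
                (by norm_num)
          _ = C := one_mul _
      · rw [abs_zero]
        exact hC0
    · rw [indicator_of_notMem hp]
      unfold KK
      rw [GG_zero, mul_zero, ite_self, abs_zero]
      by_contra hcon
      push Not at hcon
      apply hp
      rw [hB, mem_closedBall, dist_zero_right, Prod.norm_def]
      apply max_le
      · rw [Real.norm_eq_abs, abs_le_one_iff_mul_self_le_one]
        have := sq_nonneg p.2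
        nlinarith
      · rw [Real.norm_eq_abs, abs_le_one_iff_mul_self_le_one]
        have := sq_nonneg p.1
        nlinarith

/-- Step C: polar coordinates in the last `d` coordinates -/
theorem stepC (d : ℕ) (hd : 1 ≤ d) {F : ℝ → ℝ} (hF : Measurable F) {C : ℝ}
    (hC : ∀ c, |F c| ≤ C) :
    ∫ a : ℝ, ∫ y : E d, GG F a ‖y‖ = d * om d * ∫ p : ℝ × ℝ, KK d F p := by
  have : Nonempty (Fin d) := ⟨⟨0, by omega⟩⟩
  have : Nontrivial (E d) := inferInstance
  have hdim : Module.finrank ℝ (E d) = d := by simp [E]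
  have h1 : ∀ a : ℝ, ∫ y : E d, GG F a ‖y‖ = d * om d * ∫ s : ℝ, KK d F (a, s) := by
    intro a
    rw [integral_fun_norm_addHaar (volume : Measure (E d)) (GG F a), hdim, nsmul_eq_mul,
      smul_eq_mul, ← mul_assoc]
    congr 1
    rw [← integral_indicator measurableSet_Ioi]
    congr 1
  rw [integral_congr_ae (Filter.Eventually.of_forall h1), integral_const_mul]
  congr 1
  rw [Measure.volume_eq_prod, integral_prod _ (by
    rw [← Measure.volume_eq_prod]
    exact KK_int d hF hC)]

/-- Step D: polar coordinates of the plane -/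
theorem stepD (d : ℕ) (hd : 1 ≤ d) (h : ℝ → ℝ) :
    ∫ p : ℝ × ℝ, KK d (fun c => h (Real.arccos c)) p =
      (∫ y in Ioi (0 : ℝ), y ^ d * phi y) *
        ∫ t in (0 : ℝ)..Real.pi, h t * Real.sin t ^ (d - 1) := by
  rw [← integral_comp_polarCoord_symm]
  have h1 : ∀ p ∈ polarCoord.target, p.1 • KK d (fun c => h (Real.arccos c)) (polarCoord.symm p) =
      (p.1 ^ d * phi p.1) * (if 0 < p.2 then h p.2 * Real.sin p.2 ^ (d - 1) else 0) := by
    rintro ⟨r, t⟩ hp
    rw [polarCoord_target] at hp
    obtain ⟨hr, ht⟩ := hp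
    have hr' : 0 < r := hr
    simp only [mem_Ioo] at ht
    have hsym : polarCoord.symm (r, t) = (r * Real.cos t, r * Real.sin t) := rfl
    rw [hsym]
    unfold KK
    simp only [smul_eq_mul]
    by_cases h0 : 0 < t
    · have hsin : 0 < Real.sin t := Real.sin_pos_of_pos_of_lt_pi h0 ht.2
      rw [if_pos (mul_pos hr' hsin), if_pos h0]
      unfold GG
      have hsq : √((r * Real.cos t) ^ 2 + (r * Real.sin t) ^ 2) = r := by
        have : (r * Real.cos t) ^ 2 + (r * Real.sin t) ^ 2 = r ^ 2 := by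
          have := Real.sin_sq_add_cos_sq t
          calc (r * Real.cos t) ^ 2 + (r * Real.sin t) ^ 2 =
              r ^ 2 * (Real.sin t ^ 2 + Real.cos t ^ 2) := by ring
            _ = r ^ 2 := by rw [this, mul_one]
        rw [this, Real.sqrt_sq hr'.le]
      rw [hsq]
      have hdiv : r * Real.cos t / r = Real.cos t := by
        field_simp
      rw [hdiv]
      simp only [Real.arccos_cos h0.le ht.2.le]
      obtain ⟨e, rfl⟩ : ∃ e, d = e + 1 := ⟨d - 1, by omega⟩
      simp only [Nat.add_sub_cancel]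
      rw [mul_pow]
      ring
    · have hsin : Real.sin t ≤ 0 := Real.sin_nonpos_of_nonpos_of_neg_pi_le (by linarith) ht.1.le
      rw [if_neg (by
        rw [not_lt]
        exact mul_nonpos_of_nonneg_of_nonpos hr'.le hsin), if_neg h0]
      ring
  rw [setIntegral_congr_fun polarCoord.open_target.measurableSet h1, polarCoord_target]
  rw [Measure.volume_eq_prod]
  rw [setIntegral_prod_mul (fun r : ℝ => r ^ d * phi r)
    (fun t : ℝ => if 0 < t then h t * Real.sin t ^ (d - 1) else 0)]
  congr 1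
  rw [intervalIntegral.integral_of_le Real.pi_pos.le, ← integral_Ioc_eq_integral_Ioo]
  have h2 : ∫ t in Ioc (-Real.pi) Real.pi, (if 0 < t then h t * Real.sin t ^ (d - 1) else 0) =
      ∫ t in Ioc (-Real.pi) Real.pi, (Ioi (0:ℝ)).indicator
        (fun t => h t * Real.sin t ^ (d - 1)) t := by
    congr 1
  rw [h2, setIntegral_indicator measurableSet_Ioi]
  congr 2
  ext t
  simp only [mem_inter_iff, mem_Ioc, mem_Ioi]
  constructor
  · rintro ⟨⟨_, h4⟩, h5⟩
    exact ⟨h5, h4⟩
  · rintro ⟨h5, h4⟩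
    exact ⟨⟨by linarith [Real.pi_pos], h4⟩, h5⟩

theorem J_ne (d : ℕ) : (∫ y in Ioi (0 : ℝ), y ^ d * phi y) ≠ 0 := by
  have h1 : ∫ y in Ioi (0 : ℝ), y ^ d * phi y = ∫ y in (0:ℝ)..1, y ^ d := by
    rw [intervalIntegral.integral_of_le (by norm_num), integral_Ioc_eq_integral_Ioo]
    have h2 : ∀ y : ℝ, y ^ d * phi y = (Iio (1:ℝ)).indicator (fun y => y ^ d) y := by
      intro y
      unfold phi
      by_cases hy : y < 1
      · rw [indicator_of_mem (by exact hy), if_pos hy, mul_one]
      · rw [indicator_of_notMem (by exact hy), if_neg hy, mul_zero]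
    simp only [h2]
    rw [setIntegral_indicator measurableSet_Iio, Ioi_inter_Iio]
  rw [h1, integral_pow]
  have : (0:ℝ) < (d:ℝ) + 1 := by positivity
  simp only [one_pow, ne_eq, Nat.add_eq_zero_iff, one_ne_zero, and_false, not_false_eq_true,
    zero_pow, sub_zero]
  positivity

theorem taskPolar : TaskPolar := by
  intro d hd h hh
  have hFc : Continuous (fun c => h (Real.arccos c)) := hh.comp Real.continuous_arccos
  obtain ⟨C, hC⟩ : ∃ C : ℝ, ∀ c, |h (Real.arccos c)| ≤ C := by
    obtain ⟨C, hC⟩ := (isCompact_Icc (a := (0:ℝ)) (b := Real.pi)).exists_bound_of_continuousOn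
      hh.continuousOn
    exact ⟨C, fun c => by
      have := hC (Real.arccos c) ⟨Real.arccos_nonneg c, Real.arccos_le_pi c⟩
      rwa [Real.norm_eq_abs] at this⟩
  have hA := stepA d (fun c => h (Real.arccos c))
  have hB := stepB d hFc.measurable hC
  have hCC := stepC d hd hFc.measurable hC
  have hD := stepD d hd h
  have hL : ∫ x : Sph (d + 1), h (angle (x : E (d + 1)) (EuclideanSpace.single 0 1)) ∂(sig (d + 1)) =
      ∫ x : Sph (d + 1), h (Real.arccos ((x : E (d + 1)) 0)) ∂(sig (d + 1)) := by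
    congr 1
    ext x
    congr 1
    unfold InnerProductGeometry.angle
    have hx : ‖(x : E (d + 1))‖ = 1 := by simp
    rw [hx, EuclideanSpace.inner_single_right]
    simp
  rw [hL]
  have hJ := J_ne d
  have key : (∫ x : Sph (d + 1), h (Real.arccos ((x : E (d + 1)) 0)) ∂(sig (d + 1))) *
      (∫ y in Ioi (0 : ℝ), y ^ d * phi y) =
      (d * om d * ∫ t in (0 : ℝ)..Real.pi, h t * Real.sin t ^ (d - 1)) *
      (∫ y in Ioi (0 : ℝ), y ^ d * phi y) := by
    rw [← hA, hB, hCC, hD]
    ring
  exact mul_right_cancel₀ hJ key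

end Pool.Agent.H241R3.FV.TPolar
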