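import Pool.Agent.H241R3.FV.Final2
import Pool.Agent.H241R3.FV.TMat
import Pool.Agent.H241R3.FV.TExt
import Pool.Agent.H241R3.FV.TInv
import Pool.Agent.H241R3.FV.TPolar
import Pool.Agent.H241R3.FV.TBdry
import Pool.Agent.H241R3.FV.TConst
import Pool.Agent.H241R3.FV.TCover
import Pool.Agent.H241R3.FV.TLoc
import Pool.Agent.H241R3.FV.TDiff
import Pool.Agent.H241R3.FV.TNull

set_option autoImplicit false

namespace Pool.Agent.H241R3.FV

theorem main_mod (hGen : TaskGen) (hEven : TaskEven)
    (hParity : TaskParity) (hCoverT : TaskCoverT) : Main2 :=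
  main2_of TMat.taskMat taskExt TInv.taskInv TPolar.taskPolar TBdry.taskBdry TConst.taskConst
    TCover.taskCover TLoc.taskLoc TDiff.taskDiff TNull.taskNull hGen hEven hParity hCoverT

end Pool.Agent.H241R3.FV
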