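import Pool.Agent.H241R3.FV.Stmts

set_option autoImplicit false

open MeasureTheory Metric Set Filter Topology InnerProductGeometry

namespace Pool.Agent.H241R3.FV

instance instFiniteSig (n : ℕ) : IsFiniteMeasure (sig n) := by
  unfold sig; infer_instance

/-- the map into Euclidean space -/
noncomputable def Phi {n : ℕ} {M : Type} [MetricSpace M] (bd : Sph n → M) (q : M) : E n :=
  -∫ x : Sph n, ext bd x q • (x : E n) ∂(sig n)

theorem norm_sph {n : ℕ} (x : Sph n) : ‖(x : E n)‖ = 1 := by
  have := x.2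
  simpa using this

theorem cont_of_angle {n : ℕ} (g : Sph n → ℝ)
    (h : ∀ x x', |g x - g x'| ≤ angle (x : E n) (x' : E n)) : Continuous g := by
  rw [continuous_iff_continuousAt]
  intro x0
  have h1 : ContinuousAt (fun x : Sph n => angle (x : E n) (x0 : E n)) x0 := by
    have hx0 : (x0 : E n) ≠ 0 := by
      intro h0
      have := norm_sph x0
      rw [h0, norm_zero] at this
      exact zero_ne_one this
    have h2 := continuousAt_angle (x := ((x0 : E n), (x0 : E n))) hx0 hx0
    have h3 : ContinuousAt (fun x : Sph n => ((x : E n), (x0 : E n))) x0 := by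
      fun_prop
    exact ContinuousAt.comp (f := fun x : Sph n => ((x : E n), (x0 : E n))) h2 h3
  rw [Metric.continuousAt_iff]
  intro ε hε
  rw [Metric.continuousAt_iff] at h1
  obtain ⟨δ, hδ, h2⟩ := h1 ε hε
  refine ⟨δ, hδ, fun {x} hx => ?_⟩
  have h3 := h2 hx
  have hx0 : (x0 : E n) ≠ 0 := by
    intro h0
    have := norm_sph x0
    rw [h0, norm_zero] at this
    exact zero_ne_one this
  rw [angle_self hx0, Real.dist_eq, sub_zero] at h3
  rw [Real.dist_eq]
  exact lt_of_le_of_lt (h x x0) (lt_of_le_of_lt (le_abs_self _) h3)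

theorem phi_lip {n : ℕ} {M : Type} [MetricSpace M] (bd : Sph n → M)
    (fa : ∀ x q q', |ext bd x q - ext bd x q'| ≤ dist q q')
    (fb : ∀ x x' q, |ext bd x q - ext bd x' q| ≤ angle (x : E n) (x' : E n)) (q q' : M) :
    ‖Phi bd q - Phi bd q'‖ ≤ dist q q' * (sig n).real univ := by
  have hint : ∀ q, Integrable (fun x : Sph n => ext bd x q • (x : E n)) (sig n) := by
    intro q
    have hc : Continuous (fun x : Sph n => ext bd x q • (x : E n)) :=
      (cont_of_angle _ (fun x x' => fb x x' q)).smul continuous_subtype_val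
    exact hc.integrable_of_hasCompactSupport (HasCompactSupport.of_compactSpace _)
  have h1 : Phi bd q - Phi bd q' =
      ∫ x : Sph n, (ext bd x q' - ext bd x q) • (x : E n) ∂(sig n) := by
    unfold Phi
    rw [sub_neg_eq_add, neg_add_eq_sub, ← integral_sub (hint q') (hint q)]
    congr 1
    ext1 x
    rw [sub_smul]
  rw [h1]
  refine norm_integral_le_of_norm_le_const (Eventually.of_forall fun x => ?_)
  rw [norm_smul, norm_sph, mul_one, Real.norm_eq_abs, abs_sub_comm]
  exact fa x q q'

theorem gnorm_le {n : ℕ} (G : Matrix (Fin n) (Fin n) ℝ) (v : E n) :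
    gnorm G v ≤ √(∑ i, ∑ j, |G i j|) * ‖v‖ := by
  unfold gnorm
  have h0 : 0 ≤ ∑ i, ∑ j, |G i j| := by positivity
  rw [← Real.sqrt_sq (norm_nonneg v), ← Real.sqrt_mul h0]
  apply Real.sqrt_le_sqrt
  rw [Finset.sum_mul]
  refine Finset.sum_le_sum fun i _ => ?_
  rw [Finset.sum_mul]
  refine Finset.sum_le_sum fun j _ => ?_
  have hi : |v i| ≤ ‖v‖ := by
    have := PiLp.norm_apply_le v i
    simpa using this
  have hj : |v j| ≤ ‖v‖ := by
    have := PiLp.norm_apply_le v j
    simpa using this
  calc v i * G i j * v j ≤ |v i * G i j * v j| := le_abs_self _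
    _ = |G i j| * (|v i| * |v j|) := by rw [abs_mul, abs_mul]; ring
    _ ≤ |G i j| * (‖v‖ * ‖v‖) := by gcongr
    _ = |G i j| * ‖v‖ ^ 2 := by ring

theorem gnorm_act {n : ℕ} (G A : Matrix (Fin n) (Fin n) ℝ) (h : A.transpose * G * A = 1)
    (x : Sph n) : gnorm G (act A (x : E n)) = 1 := by
  unfold gnorm
  have h1 : (∑ i, ∑ j, (act A (x : E n)) i * G i j * (act A (x : E n)) j) =
      dotProduct (A.mulVec (fun k => (x : E n) k))
        (G.mulVec (A.mulVec (fun k => (x : E n) k))) := by
    simp only [dotProduct, Matrix.mulVec, act, Finset.mul_sum, mul_assoc]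
  have h2 : dotProduct (A.mulVec (fun k => (x : E n) k))
        (G.mulVec (A.mulVec (fun k => (x : E n) k))) =
      dotProduct (fun k => (x : E n) k)
        ((A.transpose * G * A).mulVec (fun k => (x : E n) k)) := by
    rw [Matrix.mul_assoc, ← Matrix.mulVec_mulVec, ← Matrix.mulVec_mulVec,
      Matrix.dotProduct_mulVec (fun k => (x : E n) k) A.transpose, Matrix.vecMul_transpose]
  rw [h1, h2, h, Matrix.one_mulVec]
  have h3 : dotProduct (fun k => (x : E n) k) (fun k => (x : E n) k) = 1 := by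
    have h4 := norm_sph x
    have h5 : ‖(x : E n)‖ ^ 2 = ∑ i, ‖(x : E n) i‖ ^ 2 := EuclideanSpace.norm_sq_eq _
    rw [h4] at h5
    simp only [dotProduct]
    rw [one_pow] at h5
    refine Eq.trans ?_ h5.symm
    refine Finset.sum_congr rfl fun i _ => ?_
    rw [Real.norm_eq_abs, sq_abs]
    ring
  rw [h3, Real.sqrt_one]

theorem det_mat {n : ℕ} (L : E n →L[ℝ] E n) : L.det = (mat L).det := by
  have h := LinearMap.det_toMatrix (EuclideanSpace.basisFun (Fin n) ℝ).toBasis
    (L : E n →ₗ[ℝ] E n)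
  show LinearMap.det (L : E n →ₗ[ℝ] E n) = _
  rw [← h]
  congr 1

end Pool.Agent.H241R3.FV
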