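import Pool.Agent.H241R3.FV.Stmts

set_option autoImplicit false

open MeasureTheory Metric Set Filter Topology InnerProductGeometry

namespace Pool.Agent.H241R3.FV

instance instFiniteSig (n : ℕ) : IsFiniteMeasure (sig n) := by
  unfold sig; infer_instance

/-- the map into Euclidean space -/
noncomputable def Phi {n : ℕ} {M : Type} [MetricSpace M] (bd : Sph n → M) (q : M) : E n :=
  -∫ x : Sph n, ext bd x q • (x : E n) ∂(sig n)

theorem norm_sph {n : ℕ} (x : Sph n) : ‖(x : E n)‖ = 1 := by
  have := x.2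
  simpa using this

theorem cont_of_angle {n : ℕ} (g : Sph n → ℝ)
    (h : ∀ x x', |g x - g x'| ≤ angle (x : E n) (x' : E n)) : Continuous g := by
  rw [continuous_iff_continuousAt]
  intro x0
  have h1 : ContinuousAt (fun x : Sph n => angle (x : E n) (x0 : E n)) x0 := by
    have hx0 : (x0 : E n) ≠ 0 := by
      intro h0
      have := norm_sph x0
      rw [h0, norm_zero] at this
      exact zero_ne_one this
    have h2 := continuousAt_angle (x := ((x0 : E n), (x0 : E n))) hx0 hx0
    have h3 : ContinuousAt (fun x : Sph n => ((x : E n), (x0 : E n))) x0 := by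
      fun_prop
    exact ContinuousAt.comp (f := fun x : Sph n => ((x : E n), (x0 : E n))) h2 h3
  rw [Metric.continuousAt_iff]
  intro ε hε
  rw [Metric.continuousAt_iff] at h1
  obtain ⟨δ, hδ, h2⟩ := h1 ε hε
  refine ⟨δ, hδ, fun {x} hx => ?_⟩
  have h3 := h2 hx
  have hx0 : (x0 : E n) ≠ 0 := by
    intro h0
    have := norm_sph x0
    rw [h0, norm_zero] at this
    exact zero_ne_one this
  rw [angle_self hx0, Real.dist_eq, sub_zero] at h3
  rw [Real.dist_eq]
  exact lt_of_le_of_lt (h x x0) (lt_of_le_of_lt (le_abs_self _) h3)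

theorem phi_lip {n : ℕ} {M : Type} [MetricSpace M] (bd : Sph n → M)
    (fa : ∀ x q q', |ext bd x q - ext bd x q'| ≤ dist q q')
    (fb : ∀ x x' q, |ext bd x q - ext bd x' q| ≤ angle (x : E n) (x' : E n)) (q q' : M) :
    ‖Phi bd q - Phi bd q'‖ ≤ dist q q' * (sig n).real univ := by
  have hint : ∀ q, Integrable (fun x : Sph n => ext bd x q • (x : E n)) (sig n) := by
    intro q
    have hc : Continuous (fun x : Sph n => ext bd x q • (x : E n)) :=
      (cont_of_angle _ (fun x x' => fb x x' q)).smul continuous_subtype_val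
    exact hc.integrable_of_hasCompactSupport (HasCompactSupport.of_compactSpace _)
  have h1 : Phi bd q - Phi bd q' =
      ∫ x : Sph n, (ext bd x q' - ext bd x q) • (x : E n) ∂(sig n) := by
    unfold Phi
    rw [sub_neg_eq_add, neg_add_eq_sub, ← integral_sub (hint q') (hint q)]
    congr 1
    ext1 x
    rw [sub_smul]
  rw [h1]
  refine norm_integral_le_of_norm_le_const (Eventually.of_forall fun x => ?_)
  rw [norm_smul, norm_sph, mul_one, Real.norm_eq_abs, abs_sub_comm]
  exact fa x q q'

theorem gnorm_le {n : ℕ} (G : Matrix (Fin n) (Fin n) ℝ) (v : E n) :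
    gnorm G v ≤ √(∑ i, ∑ j, |G i j|) * ‖v‖ := by
  unfold gnorm
  have h0 : 0 ≤ ∑ i, ∑ j, |G i j| := by positivity
  rw [← Real.sqrt_sq (norm_nonneg v), ← Real.sqrt_mul h0]
  apply Real.sqrt_le_sqrt
  rw [Finset.sum_mul]
  refine Finset.sum_le_sum fun i _ => ?_
  rw [Finset.sum_mul]
  refine Finset.sum_le_sum fun j _ => ?_
  have hi : |v i| ≤ ‖v‖ := by
    have := PiLp.norm_apply_le v i
    simpa using this
  have hj : |v j| ≤ ‖v‖ := by
    have := PiLp.norm_apply_le v j
    simpa using this
  calc v i * G i j * v j ≤ |v i * G i j * v j| := le_abs_self _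
    _ = |G i j| * (|v i| * |v j|) := by rw [abs_mul, abs_mul]; ring
    _ ≤ |G i j| * (‖v‖ * ‖v‖) := by gcongr
    _ = |G i j| * ‖v‖ ^ 2 := by ring

theorem gnorm_act {n : ℕ} (G A : Matrix (Fin n) (Fin n) ℝ) (h : A.transpose * G * A = 1)
    (x : Sph n) : gnorm G (act A (x : E n)) = 1 := by
  unfold gnorm
  have h1 : (∑ i, ∑ j, (act A (x : E n)) i * G i j * (act A (x : E n)) j) =
      dotProduct (A.mulVec (fun k => (x : E n) k))
        (G.mulVec (A.mulVec (fun k => (x : E n) k))) := by
    simp only [dotProduct, Matrix.mulVec, act, Finset.mul_sum, mul_assoc]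
  have h2 : dotProduct (A.mulVec (fun k => (x : E n) k))
        (G.mulVec (A.mulVec (fun k => (x : E n) k))) =
      dotProduct (fun k => (x : E n) k)
        ((A.transpose * G * A).mulVec (fun k => (x : E n) k)) := by
    rw [Matrix.mul_assoc, ← Matrix.mulVec_mulVec, ← Matrix.mulVec_mulVec,
      Matrix.dotProduct_mulVec (fun k => (x : E n) k) A.transpose, Matrix.vecMul_transpose]
  rw [h1, h2, h, Matrix.one_mulVec]
  have h3 : dotProduct (fun k => (x : E n) k) (fun k => (x : E n) k) = 1 := by
    have h4 := norm_sph x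
    have h5 : ‖(x : E n)‖ ^ 2 = ∑ i, ‖(x : E n) i‖ ^ 2 := EuclideanSpace.norm_sq_eq _
    rw [h4] at h5
    simp only [dotProduct]
    rw [one_pow] at h5
    refine Eq.trans ?_ h5.symm
    refine Finset.sum_congr rfl fun i _ => ?_
    rw [Real.norm_eq_abs, sq_abs]
    ring
  rw [h3, Real.sqrt_one]

theorem det_mat {n : ℕ} (L : E n →L[ℝ] E n) : L.det = (mat L).det := by
  have h := LinearMap.det_toMatrix (EuclideanSpace.basisFun (Fin n) ℝ).toBasis
    (L : E n →ₗ[ℝ] E n)
  show LinearMap.det (L : E n →ₗ[ℝ] E n) = _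
  rw [← h]
  congr 1

theorem main_of (hMat : TaskMat) (hExt : TaskExt) (hInv : TaskInv) (hPolar : TaskPolar)
    (hBdry : TaskBdry) (hConst : TaskConst) (hCover : TaskCover) (hLoc : TaskLoc)
    (hDiff : TaskDiff) (hNull : TaskNull) : Main := by
  intro d hd M _ S hS
  classical
  obtain ⟨fa, fb, fc⟩ := hExt (d + 1) (Nat.succ_pos d) M S.bd hS
  have bdry := hBdry hInv hPolar d hd
  obtain ⟨om_pos, lam_pos, sig_univ, ratio⟩ := hConst hPolar d hd
  have hsig0 : 0 ≤ (sig (d + 1)).real univ := measureReal_nonneg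
  let Φ : M → E (d + 1) := Phi S.bd
  have hlip : ∀ q q', ‖Φ q - Φ q'‖ ≤ dist q q' * (sig (d + 1)).real univ := phi_lip S.bd fa fb
  have hΦc : Continuous Φ := by
    have : LipschitzWith (Real.toNNReal ((sig (d + 1)).real univ)) Φ := by
      refine LipschitzWith.of_dist_le_mul fun q q' => ?_
      rw [dist_eq_norm, Real.coe_toNNReal _ hsig0, mul_comm]
      exact hlip q q'
    exact this.continuous
  have hΦb : ∀ p, Φ (S.bd p) = lam (d + 1) • (p : E (d + 1)) := by
    intro p
    show -∫ x : Sph (d + 1), ext S.bd x (S.bd p) • (x : E (d + 1)) ∂(sig (d + 1)) = _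
    have h1 : (fun x : Sph (d + 1) => ext S.bd x (S.bd p) • (x : E (d + 1))) =
        fun x : Sph (d + 1) => angle (x : E (d + 1)) (p : E (d + 1)) • (x : E (d + 1)) := by
      funext x
      rw [fc x p]
    rw [h1, bdry p, neg_smul, neg_neg]
  have hcov := hCover (d + 1) (Nat.succ_pos d) M S.bd S.noRetraction Φ (lam (d + 1)) lam_pos
    hΦc hΦb
  have := S.countable
  -- the ball is covered by the images of the charts
  have hsub : ball (0 : E (d + 1)) (lam (d + 1)) ⊆
      ⋃ i, (fun p => Φ ((S.chart i).map p)) '' (S.chart i).D := by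
    intro y hy
    obtain ⟨q, rfl⟩ := hcov hy
    rcases S.cover q with ⟨x, rfl⟩ | ⟨i, p, hp, rfl⟩
    · exfalso
      rw [hΦb] at hy
      have h1 : ‖lam (d + 1) • (x : E (d + 1))‖ < lam (d + 1) := by simpa using hy
      rw [norm_smul, norm_sph, mul_one, Real.norm_of_nonneg lam_pos.le] at h1
      exact lt_irrefl _ h1
    · exact mem_iUnion.mpr ⟨i, ⟨p, hp, rfl⟩⟩
  -- the estimate in one chart
  have hchart : ∀ i, volume ((fun p => Φ ((S.chart i).map p)) '' (S.chart i).D) ≤
      ENNReal.ofReal (om (d + 1) ^ (d + 1)) *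
        ∫⁻ p in (S.chart i).D, ENNReal.ofReal √((S.chart i).G p).det := by
    intro i
    set C := S.chart i with hC
    let Ψ : E (d + 1) → E (d + 1) := fun p => Φ (C.map p)
    have hloc := hLoc (d + 1) M C
    have hdiff := hDiff (d + 1) (Nat.succ_pos d) C.U C.isOpen_U C.G
      (fun x p => ext S.bd x (C.map p)) (by
        intro p hp ε hε
        obtain ⟨r, hr, hr2, hr3⟩ := hloc p hp ε hε
        exact ⟨r, hr, hr2, fun x y hy z hz => (fa x _ _).trans (hr3 y hy z hz)⟩)
      (fun x x' p _ => fb x x' _)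
    -- the derivative of Ψ
    let good : E (d + 1) → (E (d + 1) →L[ℝ] E (d + 1)) → Prop := fun p L =>
      HasFDerivAt Ψ L p ∧ |L.det| ≤ om (d + 1) ^ (d + 1) * √(C.G p).det
    have hgood : ∀ᵐ p ∂(volume : Measure (E (d + 1))), p ∈ C.U → ∃ L, good p L := by
      filter_upwards [hdiff] with p hp hpU
      obtain ⟨L, hL1, hL2⟩ := hp hpU
      refine ⟨-L, ?_, ?_⟩
      · exact hL1.neg
      · have e1 : |(-L).det| = |L.det| := by
          have h1 : (-L).det = (-1) ^ (d + 1) * L.det := by
            have h2 : (-L : E (d + 1) →L[ℝ] E (d + 1)) = (-1 : ℝ) • L := by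
              ext v k
              simp
            show LinearMap.det ((-L : E (d + 1) →L[ℝ] E (d + 1)) : E (d + 1) →ₗ[ℝ] E (d + 1)) = _
            rw [h2]
            show LinearMap.det ((-1 : ℝ) • (L : E (d + 1) →ₗ[ℝ] E (d + 1))) = _
            rw [LinearMap.det_smul]
            simp
          rw [h1, abs_mul, abs_pow, abs_neg, abs_one, one_pow, one_mul]
        rw [e1, det_mat]
        refine hMat (d + 1) (Nat.succ_pos d) (mat L) (C.G p) (C.pos_G p hpU) (om (d + 1))
          om_pos.le ?_
        intro A hA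
        refine (hL2 A).trans ?_
        have h1 : (fun x : Sph (d + 1) => gnorm (C.G p) (act A (x : E (d + 1)))) =
            fun _ => (1 : ℝ) := by
          funext x
          exact gnorm_act _ _ hA x
        rw [h1, integral_const, smul_eq_mul, mul_one, sig_univ]
    let bad : Set (E (d + 1)) := {p | ¬ (p ∈ C.U → ∃ L, good p L)}
    have hbad : volume bad = 0 := hgood
    let N : Set (E (d + 1)) := toMeasurable volume bad
    have hN0 : volume N = 0 := by rw [measure_toMeasurable, hbad]
    have hNm : MeasurableSet N := measurableSet_toMeasurable _ _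
    have hbN : bad ⊆ N := subset_toMeasurable _ _
    have hex : ∀ p ∈ C.D \ N, ∃ L, good p L := by
      intro p hp
      by_contra hcon
      apply hp.2
      apply hbN
      show ¬ (p ∈ C.U → ∃ L, good p L)
      intro h
      exact hcon (h (C.D_sub hp.1))
    let f' : E (d + 1) → (E (d + 1) →L[ℝ] E (d + 1)) := fun p =>
      if h : ∃ L, good p L then h.choose else 0
    have hf' : ∀ p ∈ C.D \ N, good p (f' p) := by
      intro p hp
      have h := hex p hp
      simp only [f', dif_pos h]
      exact h.choose_spec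
    have step1 : volume (Ψ '' (C.D \ N)) ≤
        ∫⁻ p in C.D \ N, ENNReal.ofReal |(f' p).det| :=
      addHaar_image_le_lintegral_abs_det_fderiv volume (C.meas_D.diff hNm)
        (fun p hp => (hf' p hp).1.hasFDerivWithinAt)
    have step2 : ∫⁻ p in C.D \ N, ENNReal.ofReal |(f' p).det| ≤
        ENNReal.ofReal (om (d + 1) ^ (d + 1)) *
          ∫⁻ p in C.D, ENNReal.ofReal √(C.G p).det := by
      rw [← lintegral_const_mul' _ _ ENNReal.ofReal_ne_top]
      calc ∫⁻ p in C.D \ N, ENNReal.ofReal |(f' p).det|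
          ≤ ∫⁻ p in C.D \ N, ENNReal.ofReal (om (d + 1) ^ (d + 1)) *
              ENNReal.ofReal √(C.G p).det := by
            refine setLIntegral_mono' (C.meas_D.diff hNm) fun p hp => ?_
            rw [← ENNReal.ofReal_mul (by positivity)]
            exact ENNReal.ofReal_le_ofReal (hf' p hp).2
        _ ≤ _ := lintegral_mono_set sdiff_subset
    have step3 : volume (Ψ '' (C.D ∩ N)) = 0 := by
      refine hNull (d + 1) C.U Ψ ?_ _ (fun p hp => C.D_sub hp.1) ?_
      · intro p hp
        obtain ⟨r, hr, hr2, hr3⟩ := hloc p hp 1 one_pos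
        refine ⟨r, hr, (√(∑ i, ∑ j, |C.G p i j|) + 1) * (sig (d + 1)).real univ, ?_⟩
        intro y hy z hz
        calc ‖Ψ y - Ψ z‖ ≤ dist (C.map y) (C.map z) * (sig (d + 1)).real univ := hlip _ _
          _ ≤ (gnorm (C.G p) (y - z) + 1 * ‖y - z‖) * (sig (d + 1)).real univ := by
              gcongr
              exact hr3 y hy z hz
          _ ≤ (√(∑ i, ∑ j, |C.G p i j|) * ‖y - z‖ + 1 * ‖y - z‖) *
                (sig (d + 1)).real univ := by
              gcongr
              exact gnorm_le _ _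
          _ = _ := by ring
      · exact measure_mono_null inter_subset_right hN0
    calc volume (Ψ '' C.D) ≤ volume (Ψ '' (C.D \ N) ∪ Ψ '' (C.D ∩ N)) := by
          apply measure_mono
          rw [← image_union, sdiff_union_inter]
      _ ≤ volume (Ψ '' (C.D \ N)) + volume (Ψ '' (C.D ∩ N)) := measure_union_le _ _
      _ = volume (Ψ '' (C.D \ N)) := by rw [step3, add_zero]
      _ ≤ _ := step1.trans step2
  -- conclusion
  have htot : volume (ball (0 : E (d + 1)) (lam (d + 1))) ≤
      ENNReal.ofReal (om (d + 1) ^ (d + 1)) * S.vol := by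
    calc volume (ball (0 : E (d + 1)) (lam (d + 1)))
        ≤ volume (⋃ i, (fun p => Φ ((S.chart i).map p)) '' (S.chart i).D) := measure_mono hsub
      _ ≤ ∑' i, volume ((fun p => Φ ((S.chart i).map p)) '' (S.chart i).D) :=
          measure_iUnion_le _
      _ ≤ ∑' i, ENNReal.ofReal (om (d + 1) ^ (d + 1)) *
            ∫⁻ p in (S.chart i).D, ENNReal.ofReal √((S.chart i).G p).det :=
          ENNReal.tsum_le_tsum hchart
      _ = _ := ENNReal.tsum_mul_left
  rw [Measure.addHaar_ball _ _ lam_pos.le] at htot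
  rw [← ratio]
  have hfin : Module.finrank ℝ (E (d + 1)) = d + 1 := by simp
  rw [hfin] at htot
  have hne : ENNReal.ofReal (om (d + 1) ^ (d + 1)) ≠ 0 := by
    rw [Ne, ENNReal.ofReal_eq_zero, not_le]
    positivity
  rw [← ENNReal.mul_le_mul_iff_right hne ENNReal.ofReal_ne_top]
  refine le_trans (le_of_eq ?_) htot
  rw [mul_comm (volume (ball (0 : E (d + 1)) 1)), ← mul_assoc, ← ENNReal.ofReal_mul (by positivity)]
  congr 2
  rw [div_pow]
  field_simp

end Pool.Agent.H241R3.FV
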