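import Pool.Agent.H241R3.FV.Stmts2
import Pool.Agent.H241R3.FV.Base

set_option autoImplicit false

open MeasureTheory Metric Set Filter Topology InnerProductGeometry

namespace Pool.Agent.H241R3.FV

theorem main2_of (hMat : TaskMat) (hExt : TaskExt) (hInv : TaskInv) (hPolar : TaskPolar)
    (hBdry : TaskBdry) (hConst : TaskConst) (hCover : TaskCover) (hLoc : TaskLoc)
    (hDiff : TaskDiff) (hNull : TaskNull) (hGen : TaskGen) (hEven : TaskEven)
    (hParity : TaskParity) (hCoverT : TaskCoverT) : Main2 := by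
  intro d hd M _ _ S hS htop
  classical
  obtain ⟨fa, fb, fc⟩ := hExt (d + 1) (Nat.succ_pos d) M S.bd hS
  have bdry := hBdry hInv hPolar d hd
  obtain ⟨om_pos, lam_pos, sig_univ, ratio⟩ := hConst hPolar d hd
  have hsig0 : 0 ≤ (sig (d + 1)).real univ := measureReal_nonneg
  let Φ : M → E (d + 1) := Phi S.bd
  have hlip : ∀ q q', ‖Φ q - Φ q'‖ ≤ dist q q' * (sig (d + 1)).real univ := phi_lip S.bd fa fb
  have hΦc : Continuous Φ := by
    have : LipschitzWith (Real.toNNReal ((sig (d + 1)).real univ)) Φ := by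
      refine LipschitzWith.of_dist_le_mul fun q q' => ?_
      rw [dist_eq_norm, Real.coe_toNNReal _ hsig0, mul_comm]
      exact hlip q q'
    exact this.continuous
  have hΦb : ∀ p, Φ (S.bd p) = lam (d + 1) • (p : E (d + 1)) := by
    intro p
    show -∫ x : Sph (d + 1), ext S.bd x (S.bd p) • (x : E (d + 1)) ∂(sig (d + 1)) = _
    have h1 : (fun x : Sph (d + 1) => ext S.bd x (S.bd p) • (x : E (d + 1))) =
        fun x : Sph (d + 1) => angle (x : E (d + 1)) (p : E (d + 1)) • (x : E (d + 1)) := by
      funext x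
      rw [fc x p]
    rw [h1, bdry p, neg_smul, neg_neg]
  have hcov : ball (0 : E (d + 1)) (lam (d + 1)) ⊆ range Φ := by
    rcases htop with htri | hno
    · exact hCoverT hGen hParity hEven d hd M S.bd hS htri Φ (lam (d + 1))
        ((sig (d + 1)).real univ) lam_pos hΦc hlip hΦb
    · exact hCover (d + 1) (Nat.succ_pos d) M S.bd hno Φ (lam (d + 1)) lam_pos hΦc hΦb
  have := S.countable
  -- the ball is covered by the images of the charts
  have hsub : ball (0 : E (d + 1)) (lam (d + 1)) ⊆
      ⋃ i, (fun p => Φ ((S.chart i).map p)) '' (S.chart i).D := by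
    intro y hy
    obtain ⟨q, rfl⟩ := hcov hy
    rcases S.cover q with ⟨x, rfl⟩ | ⟨i, p, hp, rfl⟩
    · exfalso
      rw [hΦb] at hy
      have h1 : ‖lam (d + 1) • (x : E (d + 1))‖ < lam (d + 1) := by simpa using hy
      rw [norm_smul, norm_sph, mul_one, Real.norm_of_nonneg lam_pos.le] at h1
      exact lt_irrefl _ h1
    · exact mem_iUnion.mpr ⟨i, ⟨p, hp, rfl⟩⟩
  -- the estimate in one chart
  have hchart : ∀ i, volume ((fun p => Φ ((S.chart i).map p)) '' (S.chart i).D) ≤
      ENNReal.ofReal (om (d + 1) ^ (d + 1)) *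
        ∫⁻ p in (S.chart i).D, ENNReal.ofReal √((S.chart i).G p).det := by
    intro i
    set C := S.chart i with hC
    let Ψ : E (d + 1) → E (d + 1) := fun p => Φ (C.map p)
    have hloc := hLoc (d + 1) M C
    have hdiff := hDiff (d + 1) (Nat.succ_pos d) C.U C.isOpen_U C.G
      (fun x p => ext S.bd x (C.map p)) (by
        intro p hp ε hε
        obtain ⟨r, hr, hr2, hr3⟩ := hloc p hp ε hε
        exact ⟨r, hr, hr2, fun x y hy z hz => (fa x _ _).trans (hr3 y hy z hz)⟩)
      (fun x x' p _ => fb x x' _)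
    -- the derivative of Ψ
    let good : E (d + 1) → (E (d + 1) →L[ℝ] E (d + 1)) → Prop := fun p L =>
      HasFDerivAt Ψ L p ∧ |L.det| ≤ om (d + 1) ^ (d + 1) * √(C.G p).det
    have hgood : ∀ᵐ p ∂(volume : Measure (E (d + 1))), p ∈ C.U → ∃ L, good p L := by
      filter_upwards [hdiff] with p hp hpU
      obtain ⟨L, hL1, hL2⟩ := hp hpU
      refine ⟨-L, ?_, ?_⟩
      · exact hL1.neg
      · have e1 : |(-L).det| = |L.det| := by
          have h1 : (-L).det = (-1) ^ (d + 1) * L.det := by
            have h2 : (-L : E (d + 1) →L[ℝ] E (d + 1)) = (-1 : ℝ) • L := by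
              ext v k
              simp
            show LinearMap.det ((-L : E (d + 1) →L[ℝ] E (d + 1)) : E (d + 1) →ₗ[ℝ] E (d + 1)) = _
            rw [h2]
            show LinearMap.det ((-1 : ℝ) • (L : E (d + 1) →ₗ[ℝ] E (d + 1))) = _
            rw [LinearMap.det_smul]
            simp
          rw [h1, abs_mul, abs_pow, abs_neg, abs_one, one_pow, one_mul]
        rw [e1, det_mat]
        refine hMat (d + 1) (Nat.succ_pos d) (mat L) (C.G p) (C.pos_G p hpU) (om (d + 1))
          om_pos.le ?_
        intro A hA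
        refine (hL2 A).trans ?_
        have h1 : (fun x : Sph (d + 1) => gnorm (C.G p) (act A (x : E (d + 1)))) =
            fun _ => (1 : ℝ) := by
          funext x
          exact gnorm_act _ _ hA x
        rw [h1, integral_const, smul_eq_mul, mul_one, sig_univ]
    let bad : Set (E (d + 1)) := {p | ¬ (p ∈ C.U → ∃ L, good p L)}
    have hbad : volume bad = 0 := hgood
    let N : Set (E (d + 1)) := toMeasurable volume bad
    have hN0 : volume N = 0 := by rw [measure_toMeasurable, hbad]
    have hNm : MeasurableSet N := measurableSet_toMeasurable _ _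
    have hbN : bad ⊆ N := subset_toMeasurable _ _
    have hex : ∀ p ∈ C.D \ N, ∃ L, good p L := by
      intro p hp
      by_contra hcon
      apply hp.2
      apply hbN
      show ¬ (p ∈ C.U → ∃ L, good p L)
      intro h
      exact hcon (h (C.D_sub hp.1))
    let f' : E (d + 1) → (E (d + 1) →L[ℝ] E (d + 1)) := fun p =>
      if h : ∃ L, good p L then h.choose else 0
    have hf' : ∀ p ∈ C.D \ N, good p (f' p) := by
      intro p hp
      have h := hex p hp
      simp only [f', dif_pos h]
      exact h.choose_spec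
    have step1 : volume (Ψ '' (C.D \ N)) ≤
        ∫⁻ p in C.D \ N, ENNReal.ofReal |(f' p).det| :=
      addHaar_image_le_lintegral_abs_det_fderiv volume (C.meas_D.diff hNm)
        (fun p hp => (hf' p hp).1.hasFDerivWithinAt)
    have step2 : ∫⁻ p in C.D \ N, ENNReal.ofReal |(f' p).det| ≤
        ENNReal.ofReal (om (d + 1) ^ (d + 1)) *
          ∫⁻ p in C.D, ENNReal.ofReal √(C.G p).det := by
      rw [← lintegral_const_mul' _ _ ENNReal.ofReal_ne_top]
      calc ∫⁻ p in C.D \ N, ENNReal.ofReal |(f' p).det|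
          ≤ ∫⁻ p in C.D \ N, ENNReal.ofReal (om (d + 1) ^ (d + 1)) *
              ENNReal.ofReal √(C.G p).det := by
            refine setLIntegral_mono' (C.meas_D.diff hNm) fun p hp => ?_
            rw [← ENNReal.ofReal_mul (by positivity)]
            exact ENNReal.ofReal_le_ofReal (hf' p hp).2
        _ ≤ _ := lintegral_mono_set sdiff_subset
    have step3 : volume (Ψ '' (C.D ∩ N)) = 0 := by
      refine hNull (d + 1) C.U Ψ ?_ _ (fun p hp => C.D_sub hp.1) ?_
      · intro p hp
        obtain ⟨r, hr, hr2, hr3⟩ := hloc p hp 1 one_pos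
        refine ⟨r, hr, (√(∑ i, ∑ j, |C.G p i j|) + 1) * (sig (d + 1)).real univ, ?_⟩
        intro y hy z hz
        calc ‖Ψ y - Ψ z‖ ≤ dist (C.map y) (C.map z) * (sig (d + 1)).real univ := hlip _ _
          _ ≤ (gnorm (C.G p) (y - z) + 1 * ‖y - z‖) * (sig (d + 1)).real univ := by
              gcongr
              exact hr3 y hy z hz
          _ ≤ (√(∑ i, ∑ j, |C.G p i j|) * ‖y - z‖ + 1 * ‖y - z‖) *
                (sig (d + 1)).real univ := by
              gcongr
              exact gnorm_le _ _
          _ = _ := by ring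
      · exact measure_mono_null inter_subset_right hN0
    calc volume (Ψ '' C.D) ≤ volume (Ψ '' (C.D \ N) ∪ Ψ '' (C.D ∩ N)) := by
          apply measure_mono
          rw [← image_union, sdiff_union_inter]
      _ ≤ volume (Ψ '' (C.D \ N)) + volume (Ψ '' (C.D ∩ N)) := measure_union_le _ _
      _ = volume (Ψ '' (C.D \ N)) := by rw [step3, add_zero]
      _ ≤ _ := step1.trans step2
  -- conclusion
  have htot : volume (ball (0 : E (d + 1)) (lam (d + 1))) ≤
      ENNReal.ofReal (om (d + 1) ^ (d + 1)) * S.vol := by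
    calc volume (ball (0 : E (d + 1)) (lam (d + 1)))
        ≤ volume (⋃ i, (fun p => Φ ((S.chart i).map p)) '' (S.chart i).D) := measure_mono hsub
      _ ≤ ∑' i, volume ((fun p => Φ ((S.chart i).map p)) '' (S.chart i).D) :=
          measure_iUnion_le _
      _ ≤ ∑' i, ENNReal.ofReal (om (d + 1) ^ (d + 1)) *
            ∫⁻ p in (S.chart i).D, ENNReal.ofReal √((S.chart i).G p).det :=
          ENNReal.tsum_le_tsum hchart
      _ = _ := ENNReal.tsum_mul_left
  rw [Measure.addHaar_ball _ _ lam_pos.le] at htot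
  rw [← ratio]
  have hfin : Module.finrank ℝ (E (d + 1)) = d + 1 := by simp
  rw [hfin] at htot
  have hne : ENNReal.ofReal (om (d + 1) ^ (d + 1)) ≠ 0 := by
    rw [Ne, ENNReal.ofReal_eq_zero, not_le]
    positivity
  rw [← ENNReal.mul_le_mul_iff_right hne ENNReal.ofReal_ne_top]
  refine le_trans (le_of_eq ?_) htot
  rw [mul_comm (volume (ball (0 : E (d + 1)) 1)), ← mul_assoc, ← ENNReal.ofReal_mul (by positivity)]
  congr 2
  rw [div_pow]
  field_simp

end Pool.Agent.H241R3.FV
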