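import Pool.Agent.H241R3.FV.Stmts

/-!
# Triangulated fillings
-/

set_option autoImplicit false

open MeasureTheory Metric Set Filter Topology InnerProductGeometry

namespace Pool.Agent.H241R3.FV

/-- The convex cone spanned by the unit vectors `b v`, `v ∈ F`. -/
def coneOf {n : ℕ} {V : Type} (b : V → Sph n) (F : Finset V) : Set (E n) :=
  {y | ∃ c : V → ℝ, (∀ v, 0 ≤ c v) ∧ y = ∑ v ∈ F, c v • (b v : E n)}

/-- A finite triangulation of mesh less than `ε` of a space `M` with boundary sphere
`bd : S^d → M`: a finite set `V` of vertices with positions in `M`, a finite set `T` of simplices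
with `d + 2` vertices, such that every set of `d + 1` vertices of a simplex belongs to exactly two
simplices, or it belongs to exactly one simplex and to the set `B` of boundary faces; the vertices
of the boundary faces lie on the boundary sphere, and the cones over the boundary faces tile the
Euclidean space (so that the boundary faces triangulate the round sphere by geodesic simplices). -/
structure Triang {d : ℕ} {M : Type} [MetricSpace M] (bd : Sph (d + 1) → M) (ε : ℝ) where
  /-- vertices -/
  V : Type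
  fin : Fintype V
  dec : DecidableEq V
  /-- positions -/
  pos : V → M
  /-- simplices -/
  T : Finset (Finset V)
  card_T : ∀ σ ∈ T, σ.card = d + 2
  mesh : ∀ σ ∈ T, ∀ v ∈ σ, ∀ w ∈ σ, dist (pos v) (pos w) < ε
  /-- boundary faces -/
  B : Finset (Finset V)
  B_sub : ∀ F ∈ B, F.card = d + 1 ∧ ∃ σ ∈ T, F ⊆ σ
  face : ∀ F : Finset V, F.card = d + 1 → (∃ σ ∈ T, F ⊆ σ) →
    ({σ | σ ∈ T ∧ F ⊆ σ}.ncard = 2 ∧ F ∉ B) ∨ ({σ | σ ∈ T ∧ F ⊆ σ}.ncard = 1 ∧ F ∈ B)
  /-- the boundary vertices as points of the round sphere -/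
  b : V → Sph (d + 1)
  b_spec : ∀ F ∈ B, ∀ v ∈ F, bd (b v) = pos v
  tile : ∀ᵐ y ∂(volume : Measure (E (d + 1))), ∃! F, F ∈ B ∧ y ∈ coneOf b F

/-- A filling of the sphere `S^d`: a metric space `M` with countably many Riemannian charts of
dimension `d + 1` and a map `bd : S^d → M` (the boundary), such that `M` is the union of the
boundary and of the parts `D` of the charts. -/
structure Fill (d : ℕ) (M : Type) [MetricSpace M] where
  /-- index set of the charts -/
  ι : Type
  countable : Countable ι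
  /-- the charts -/
  chart : ι → RChart (d + 1) M
  /-- the boundary sphere -/
  bd : Sph (d + 1) → M
  cover : ∀ q : M, (∃ x, bd x = q) ∨ ∃ i, ∃ p ∈ (chart i).D, (chart i).map p = q

/-- The volume: the sum over the charts of the integrals of `√(det G)` over the parts `D`. -/
noncomputable def Fill.vol {d : ℕ} {M : Type} [MetricSpace M] (S : Fill d M) : ENNReal :=
  ∑' i, ∫⁻ p in (S.chart i).D, ENNReal.ofReal √((S.chart i).G p).det

/-- The filling is nonshortcutting. -/
def Fill.NonShort {d : ℕ} {M : Type} [MetricSpace M] (S : Fill d M) : Prop :=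
  ∀ x y : Sph (d + 1), angle (x : E (d + 1)) (y : E (d + 1)) ≤ dist (S.bd x) (S.bd y)

/-- There are arbitrarily fine finite triangulations. -/
def Fill.Triangulated {d : ℕ} {M : Type} [MetricSpace M] (S : Fill d M) : Prop :=
  ∀ ε : ℝ, 0 < ε → Nonempty (Triang S.bd ε)

/-- No continuous map `M → S^d` is the identity on the boundary. -/
def Fill.NoRetraction {d : ℕ} {M : Type} [MetricSpace M] (S : Fill d M) : Prop :=
  ¬ ∃ r : M → Sph (d + 1), Continuous r ∧ ∀ x, r (S.bd x) = x

/-- The main statement. -/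
def Main2 : Prop :=
  ∀ (d : ℕ), 1 ≤ d → ∀ (M : Type) [MetricSpace M] [CompactSpace M] (S : Fill d M),
    S.NonShort → (S.Triangulated ∨ S.NoRetraction) →
    volume (ball (0 : E (d + 1)) 1) * ENNReal.ofReal
      (((∫ t in (0 : ℝ)..Real.pi, Real.sin t ^ d) /
        ∫ t in (0 : ℝ)..Real.pi, Real.sin t ^ (d + 1)) ^ (d + 1)) ≤ S.vol

/-- Among `n + 2` points of `ℝ^n` an even number of the sets of `n + 1` points have `y` in the
convex hull, if `y` is in general position. -/
def TaskEven : Prop :=
  ∀ (n : ℕ) (ι : Type) [Fintype ι] [DecidableEq ι], Fintype.card ι = n + 2 →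
    ∀ (p : ι → E n) (y : E n),
      (∀ s : Finset ι, s.card ≤ n → y ∉ convexHull ℝ (p '' (s : Set ι))) →
      Even {i : ι | y ∈ convexHull ℝ (p '' {i}ᶜ)}.ncard

/-- The convex hull of at most `n` points of `ℝ^n` is a null set. -/
def TaskGen : Prop :=
  ∀ (n : ℕ) (s : Finset (E n)), s.card ≤ n → volume (convexHull ℝ (s : Set (E n))) = 0

/-- Parity: the number of simplices with `y` in the image hull is congruent to the number of
boundary faces `F` with `y` in the hull of `0` and the image of `F`. -/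
def TaskParity : Prop :=
  TaskEven → ∀ (d : ℕ) (M : Type) [MetricSpace M] (bd : Sph (d + 1) → M) (ε : ℝ)
    (Tr : Triang bd ε) (g : Tr.V → E (d + 1)) (y : E (d + 1)),
    (∀ s : Finset (Option Tr.V), s.card ≤ d + 1 →
      y ∉ convexHull ℝ ((fun o : Option Tr.V => o.elim 0 g) '' (s : Set (Option Tr.V)))) →
    ({σ | σ ∈ Tr.T ∧ y ∈ convexHull ℝ (g '' (σ : Set Tr.V))}.ncard : ZMod 2) =
      ({F | F ∈ Tr.B ∧ y ∈ convexHull ℝ (insert 0 (g '' (F : Set Tr.V)))}.ncard : ZMod 2)

/-- Covering for triangulated spaces. -/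
def TaskCoverT : Prop :=
  TaskGen → TaskParity → TaskEven → ∀ (d : ℕ), 1 ≤ d → ∀ (M : Type) [MetricSpace M]
    [CompactSpace M] (bd : Sph (d + 1) → M),
    (∀ x y : Sph (d + 1), angle (x : E (d + 1)) (y : E (d + 1)) ≤ dist (bd x) (bd y)) →
    (∀ ε : ℝ, 0 < ε → Nonempty (Triang bd ε)) →
    ∀ (Φ : M → E (d + 1)) (l K : ℝ), 0 < l → Continuous Φ →
      (∀ q q', ‖Φ q - Φ q'‖ ≤ dist q q' * K) → (∀ x, Φ (bd x) = l • (x : E (d + 1))) →
      ball (0 : E (d + 1)) l ⊆ range Φ


end Pool.Agent.H241R3.FV
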