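import Pool.Agent.H241R3.FV.Stmts2

/-!
# TaskCoverT (helper853): covering for triangulated spaces
-/

set_option autoImplicit false

open MeasureTheory Metric Set Filter Topology InnerProductGeometry

namespace Pool.Agent.H241R3.FV.TCoverT

lemma convex_coneOf {n : ℕ} {V : Type} (b : V → Sph n) (F : Finset V) :
    Convex ℝ (coneOf b F) := by
  rintro x ⟨c, hc, rfl⟩ y ⟨c', hc', rfl⟩ s t hs ht hst
  refine ⟨fun v => s * c v + t * c' v, fun v => add_nonneg (mul_nonneg hs (hc v))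
    (mul_nonneg ht (hc' v)), ?_⟩
  rw [Finset.smul_sum, Finset.smul_sum, ← Finset.sum_add_distrib]
  refine Finset.sum_congr rfl fun v _ => ?_
  rw [add_smul, mul_smul, mul_smul]

lemma zero_mem_coneOf {n : ℕ} {V : Type} (b : V → Sph n) (F : Finset V) :
    (0 : E n) ∈ coneOf b F :=
  ⟨fun _ => 0, fun _ => le_refl _, by simp⟩

lemma smul_mem_coneOf {n : ℕ} {V : Type} (b : V → Sph n) (F : Finset V) {v : V} (hv : v ∈ F)
    {l : ℝ} (hl : 0 ≤ l) : l • (b v : E n) ∈ coneOf b F := by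
  classical
  refine ⟨fun w => if w = v then l else 0, fun w => ?_, ?_⟩
  · by_cases h : w = v
    · simp [h, hl]
    · simp [h]
  · rw [Finset.sum_eq_single v]
    · simp
    · intro w _ hw
      simp [hw]
    · intro h
      exact absurd hv h

lemma hull_sub_cone {n : ℕ} {V : Type} (b : V → Sph n) (F : Finset V) (g : V → E n) {l : ℝ}
    (hl : 0 ≤ l) (hg : ∀ v ∈ F, g v = l • (b v : E n)) :
    convexHull ℝ (insert 0 (g '' (F : Set V))) ⊆ coneOf b F := by
  refine convexHull_min ?_ (convex_coneOf b F)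
  rintro x (rfl | ⟨v, hv, rfl⟩)
  · exact zero_mem_coneOf b F
  · rw [hg v hv]
    exact smul_mem_coneOf b F hv hl

lemma cone_sub_hull {n : ℕ} {V : Type} (b : V → Sph n) (F : Finset V) (g : V → E n) {l e : ℝ}
    (hl : 0 < l) (hg : ∀ v ∈ F, g v = l • (b v : E n)) (hF : F.Nonempty)
    (he0 : 0 < e) (he : e < Real.pi / 2)
    (hang : ∀ v ∈ F, ∀ w ∈ F, angle (b v : E n) (b w : E n) ≤ e) {y : E n}
    (hy : y ∈ coneOf b F) (hyl : ‖y‖ < l * Real.cos e) :
    y ∈ convexHull ℝ (insert 0 (g '' (F : Set V))) := by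
  obtain ⟨c, hc, rfl⟩ := hy
  obtain ⟨w, hw⟩ := hF
  have hcos : 0 < Real.cos e := Real.cos_pos_of_mem_Ioo ⟨by linarith, he⟩
  have hnorm : ∀ v, ‖(b v : E n)‖ = 1 := fun v => by
    have := (b v).2
    rwa [mem_sphere_zero_iff_norm] at this
  have hin : ∀ v ∈ F, Real.cos e ≤ inner ℝ (b v : E n) (b w : E n) := by
    intro v hv
    have h1 := cos_angle_mul_norm_mul_norm (b v : E n) (b w : E n)
    rw [hnorm, hnorm, mul_one, mul_one] at h1
    rw [← h1]
    exact Real.cos_le_cos_of_nonneg_of_le_pi (angle_nonneg _ _)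
      (by linarith [Real.pi_pos]) (hang v hv w hw)
  have hsum : (∑ v ∈ F, c v) * Real.cos e ≤ ‖∑ v ∈ F, c v • (b v : E n)‖ := by
    calc (∑ v ∈ F, c v) * Real.cos e = ∑ v ∈ F, c v * Real.cos e := Finset.sum_mul _ _ _
      _ ≤ ∑ v ∈ F, c v * inner ℝ (b v : E n) (b w : E n) :=
          Finset.sum_le_sum fun v hv => mul_le_mul_of_nonneg_left (hin v hv) (hc v)
      _ = inner ℝ (∑ v ∈ F, c v • (b v : E n)) (b w : E n) := by
          rw [sum_inner]
          refine Finset.sum_congr rfl fun v _ => ?_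
          rw [real_inner_smul_left]
      _ ≤ ‖∑ v ∈ F, c v • (b v : E n)‖ * ‖(b w : E n)‖ := real_inner_le_norm _ _
      _ = _ := by rw [hnorm, mul_one]
  have hlt : ∑ v ∈ F, c v < l := by
    have : (∑ v ∈ F, c v) * Real.cos e < l * Real.cos e := lt_of_le_of_lt hsum hyl
    exact lt_of_mul_lt_mul_right this hcos.le
  set t : ℝ := (∑ v ∈ F, c v) / l with ht
  have ht1 : t < 1 := by rw [ht, div_lt_one hl]; exact hlt
  have hC := convex_convexHull ℝ (insert (0 : E n) (g '' (F : Set V)))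
  have h := hC.sum_mem (t := Finset.insertNone F) (w := fun o : Option V => o.elim (1 - t) (fun v => c v / l))
    (z := fun o : Option V => o.elim 0 g) ?_ ?_ ?_
  · rw [Finset.sum_insertNone] at h
    simp only [Option.elim_none, Option.elim_some, smul_zero, zero_add] at h
    convert h using 1
    refine Finset.sum_congr rfl fun v hv => ?_
    rw [hg v hv, smul_smul, div_mul_cancel₀ _ hl.ne']
  · intro o _
    cases o with
    | none => simpa using ht1.le
    | some v => exact div_nonneg (hc v) hl.le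
  · rw [Finset.sum_insertNone]
    simp only [Option.elim_none, Option.elim_some]
    rw [← Finset.sum_div]
    ring
  · intro o ho
    cases o with
    | none => exact subset_convexHull ℝ _ (Set.mem_insert _ _)
    | some v =>
      refine subset_convexHull ℝ _ (Set.mem_insert_of_mem _ ⟨v, ?_, rfl⟩)
      simpa using ho

theorem taskCoverT : TaskCoverT := by
  intro hGen hPar hEven d hd M _ _ bd hbd hTr Φ l K hl hΦ hK hΦbd y0 hy0
  classical
  by_contra hcon
  have hcl : IsClosed (range Φ) := (isCompact_range hΦ).isClosed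
  obtain ⟨η, hη, hball⟩ := Metric.isOpen_iff.mp hcl.isOpen_compl y0 hcon
  rw [mem_ball_zero_iff] at hy0
  -- choose the mesh
  obtain ⟨e, he0, he2, heK, hel⟩ : ∃ e : ℝ, 0 < e ∧ e < Real.pi / 2 ∧ e * |K| < η / 2 ∧
      ‖y0‖ < l * Real.cos e := by
    have h1 : Tendsto (fun e : ℝ => e * |K|) (𝓝[>] 0) (𝓝 (0 * |K|)) :=
      (tendsto_id.mul_const _).mono_left nhdsWithin_le_nhds
    have h2 : Tendsto (fun e : ℝ => l * Real.cos e) (𝓝[>] 0) (𝓝 (l * Real.cos 0)) :=
      ((Real.continuous_cos.tendsto 0).const_mul _).mono_left nhdsWithin_le_nhds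
    rw [zero_mul] at h1
    rw [Real.cos_zero, mul_one] at h2
    have h3 : ∀ᶠ e : ℝ in 𝓝[>] 0, e < Real.pi / 2 :=
      nhdsWithin_le_nhds (eventually_lt_nhds (by positivity))
    have h4 : ∀ᶠ e : ℝ in 𝓝[>] 0, 0 < e := eventually_mem_nhdsWithin
    obtain ⟨e, ha, hb, hc, hd⟩ := (((h1.eventually_lt_const (half_pos hη)).and
      ((h2.eventually_const_lt hy0).and (h3.and h4))).exists)
    exact ⟨e, hd, hc, ha, hb⟩
  obtain ⟨Tr⟩ := hTr e he0
  have := Tr.fin
  have := Tr.dec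
  set g : Tr.V → E (d + 1) := Φ ∘ Tr.pos with hg
  -- the generic point
  have hgen : ∀ᵐ y ∂(volume : Measure (E (d + 1))), ∀ s : Finset (Option Tr.V), s.card ≤ d + 1 →
      y ∉ convexHull ℝ ((fun o : Option Tr.V => o.elim 0 g) '' (s : Set (Option Tr.V))) := by
    rw [ae_all_iff]
    intro s
    by_cases hs : s.card ≤ d + 1
    · have h0 := hGen (d + 1) (s.image (fun o : Option Tr.V => o.elim 0 g))
        (Finset.card_image_le.trans hs)
      rw [Finset.coe_image] at h0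
      filter_upwards [measure_eq_zero_iff_ae_notMem.mp h0] with y hy _
      exact hy
    · exact Eventually.of_forall fun y h => absurd h hs
  obtain ⟨y, hy1, hy2, hygen, hytile⟩ : ∃ y : E (d + 1), dist y y0 < η / 2 ∧
      ‖y‖ < l * Real.cos e ∧
      (∀ s : Finset (Option Tr.V), s.card ≤ d + 1 →
        y ∉ convexHull ℝ ((fun o : Option Tr.V => o.elim 0 g) '' (s : Set (Option Tr.V)))) ∧
      ∃! F, F ∈ Tr.B ∧ y ∈ coneOf Tr.b F := by
    have hO : IsOpen (ball y0 (η / 2) ∩ ball (0 : E (d + 1)) (l * Real.cos e)) :=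
      isOpen_ball.inter isOpen_ball
    have hpos := hO.measure_pos volume ⟨y0, mem_ball_self (half_pos hη),
      by rw [mem_ball_zero_iff]; exact hel⟩
    have hfr := (frequently_ae_mem_iff.mpr hpos.ne').and_eventually (hgen.and Tr.tile)
    obtain ⟨y, ⟨ha, hb⟩, hc, hd⟩ := hfr.exists
    rw [mem_ball_zero_iff] at hb
    exact ⟨y, ha, hb, hc, hd⟩
  -- boundary faces
  have hgB : ∀ F ∈ Tr.B, ∀ v ∈ F, g v = l • (Tr.b v : E (d + 1)) := by
    intro F hF v hv
    rw [hg, Function.comp_apply, ← Tr.b_spec F hF v hv, hΦbd]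
  have hangB : ∀ F ∈ Tr.B, ∀ v ∈ F, ∀ w ∈ F,
      angle (Tr.b v : E (d + 1)) (Tr.b w : E (d + 1)) ≤ e := by
    intro F hF v hv w hw
    obtain ⟨-, σ, hσ, hFσ⟩ := Tr.B_sub F hF
    refine (hbd _ _).trans ?_
    rw [Tr.b_spec F hF v hv, Tr.b_spec F hF w hw]
    exact (Tr.mesh σ hσ v (hFσ hv) w (hFσ hw)).le
  obtain ⟨F0, ⟨hF0B, hF0y⟩, hF0u⟩ := hytile
  have hcount : {F | F ∈ Tr.B ∧ y ∈ convexHull ℝ (insert 0 (g '' (F : Set Tr.V)))} = {F0} := by
    ext F
    simp only [Set.mem_setOf_eq, Set.mem_singleton_iff]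
    constructor
    · rintro ⟨hF, hy⟩
      exact hF0u F ⟨hF, hull_sub_cone Tr.b F g hl.le (hgB F hF) hy⟩
    · rintro rfl
      refine ⟨hF0B, cone_sub_hull Tr.b F g hl (hgB F hF0B) ?_ he0 he2 (hangB F hF0B) hF0y hy2⟩
      rw [← Finset.card_pos, (Tr.B_sub F hF0B).1]
      omega
  have hpar := hPar hEven d M bd e Tr g y hygen
  rw [hcount, Set.ncard_singleton, Nat.cast_one] at hpar
  have hne : {σ | σ ∈ Tr.T ∧ y ∈ convexHull ℝ (g '' (σ : Set Tr.V))}.Nonempty := by
    rw [Set.nonempty_iff_ne_empty]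
    intro h
    rw [h, Set.ncard_empty, Nat.cast_zero] at hpar
    exact zero_ne_one hpar
  obtain ⟨σ, hσ, hyσ⟩ := hne
  obtain ⟨v, hv⟩ : σ.Nonempty := by
    rw [← Finset.card_pos, Tr.card_T σ hσ]
    omega
  have hsub : convexHull ℝ (g '' (σ : Set Tr.V)) ⊆ closedBall (g v) (e * |K|) := by
    refine convexHull_min ?_ (convex_closedBall _ _)
    rintro _ ⟨w, hw, rfl⟩
    rw [mem_closedBall, dist_eq_norm]
    refine (hK _ _).trans ?_
    calc dist (Tr.pos w) (Tr.pos v) * K ≤ dist (Tr.pos w) (Tr.pos v) * |K| :=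
          mul_le_mul_of_nonneg_left (le_abs_self K) dist_nonneg
      _ ≤ e * |K| := mul_le_mul_of_nonneg_right (Tr.mesh σ hσ w hw v hv).le (abs_nonneg K)
  have h1 := hsub hyσ
  rw [mem_closedBall] at h1
  have h2 : g v ∈ ball y0 η := by
    rw [mem_ball]
    calc dist (g v) y0 ≤ dist (g v) y + dist y y0 := dist_triangle _ _ _
      _ < η := by rw [dist_comm (g v) y]; linarith
  exact hball h2 ⟨Tr.pos v, rfl⟩

end Pool.Agent.H241R3.FV.TCoverT

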