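import Pool.Agent.H241R3.FV.Stmts2

/-!
Among `n + 2` points of `ℝ^n` an even number of the sets of `n + 1` points have `y` in the convex
hull, if `y` is in general position.
-/

set_option autoImplicit false

namespace Pool.Agent.H241R3.FV.TEven

/-- nonnegative weights with sum one and barycentre `y`. -/
def Wt {n : ℕ} {ι : Type} [Fintype ι] (p : ι → E n) (y : E n) (w : ι → ℝ) : Prop :=
  (∀ i, 0 ≤ w i) ∧ ∑ i, w i = 1 ∧ ∑ i, w i • p i = y

theorem hull_iff {n : ℕ} {ι : Type} [Fintype ι] [DecidableEq ι] (p : ι → E n) (y : E n)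
    (s : Set ι) :
    y ∈ convexHull ℝ (p '' s) ↔ ∃ w, Wt p y w ∧ ∀ i, i ∉ s → w i = 0 := by
  classical
  constructor
  · intro h
    have hsub : convexHull ℝ (p '' s) ⊆ {x | ∃ w, Wt p x w ∧ ∀ i, i ∉ s → w i = 0} := by
      refine convexHull_min ?_ ?_
      · rintro _ ⟨i, hi, rfl⟩
        refine ⟨Pi.single i 1, ⟨?_, ?_, ?_⟩, ?_⟩
        · intro j
          by_cases h : j = i
          · subst h; simp
          · simp [Pi.single_eq_of_ne h]
        · simp
        · rw [Finset.sum_eq_single i]
          · simp
          · intro j _ hj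
            simp [Pi.single_eq_of_ne hj]
          · intro h
            exact absurd (Finset.mem_univ i) h
        · intro j hj
          have : j ≠ i := by
            rintro rfl
            exact hj hi
          simp [Pi.single_eq_of_ne this]
      · rintro x ⟨w, ⟨h1, h2, h3⟩, h4⟩ x' ⟨w', ⟨h1', h2', h3'⟩, h4'⟩ a b ha hb hab
        refine ⟨fun i => a * w i + b * w' i, ⟨?_, ?_, ?_⟩, ?_⟩
        · intro i
          exact add_nonneg (mul_nonneg ha (h1 i)) (mul_nonneg hb (h1' i))
        · rw [Finset.sum_add_distrib, ← Finset.mul_sum, ← Finset.mul_sum, h2, h2']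
          simpa using hab
        · simp only [add_smul, mul_smul]
          rw [Finset.sum_add_distrib, ← Finset.smul_sum, ← Finset.smul_sum, h3, h3']
        · intro i hi
          simp [h4 i hi, h4' i hi]
    exact hsub h
  · rintro ⟨w, ⟨h1, h2, h3⟩, h4⟩
    have h5 : ∑ i ∈ Finset.univ.filter (· ∈ s), w i • p i = y := by
      rw [← h3]
      refine Finset.sum_subset (Finset.filter_subset _ _) ?_
      intro i _ hi
      have : i ∉ s := by simpa using hi
      rw [h4 i this, zero_smul]
    have h6 : ∑ i ∈ Finset.univ.filter (· ∈ s), w i = 1 := by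
      rw [← h2]
      refine Finset.sum_subset (Finset.filter_subset _ _) ?_
      intro i _ hi
      have : i ∉ s := by simpa using hi
      exact h4 i this
    rw [← h5]
    refine (convex_convexHull ℝ (p '' s)).sum_mem (fun i _ => h1 i) h6 ?_
    intro i hi
    refine subset_convexHull ℝ _ ⟨i, ?_, rfl⟩
    simpa using hi

/-- moving along a relation to the first zero. -/
theorem move {n : ℕ} {ι : Type} [Fintype ι] [DecidableEq ι] (p : ι → E n) (y : E n)
    (w u : ι → ℝ) (hw : Wt p y w) (hu1 : ∑ i, u i = 0) (hu2 : ∑ i, u i • p i = 0)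
    (hneg : ∃ j, u j < 0) (hpos : ∀ j, u j < 0 → 0 < w j) :
    ∃ t : ℝ, 0 < t ∧ ∃ j, u j < 0 ∧ w j + t * u j = 0 ∧ Wt p y (fun i => w i + t * u i) := by
  classical
  obtain ⟨j0, hj0⟩ := hneg
  obtain ⟨j, hj, hmin⟩ := Finset.exists_min_image (Finset.univ.filter (fun i => u i < 0))
    (fun i => w i / (-u i)) ⟨j0, by simpa using hj0⟩
  have hj' : u j < 0 := by simpa using hj
  have hwj := hpos j hj'
  refine ⟨w j / (-u j), div_pos hwj (by linarith), j, hj', ?_, ?_, ?_, ?_⟩
  · have : u j ≠ 0 := hj'.ne
    field_simp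
    ring
  · intro i
    rcases lt_or_ge (u i) 0 with h | h
    · have h1 := hmin i (by simpa using h)
      have h2 : w j / (-u j) * (-u i) ≤ w i := by
        have h3 : 0 < -u i := by linarith
        calc w j / (-u j) * (-u i) ≤ w i / (-u i) * (-u i) := by
              exact mul_le_mul_of_nonneg_right h1 h3.le
          _ = w i := div_mul_cancel₀ _ h3.ne'
      simp only
      linarith
    · have h1 : 0 ≤ w j / (-u j) := (div_pos hwj (by linarith)).le
      exact add_nonneg (hw.1 i) (mul_nonneg h1 h)
  · rw [Finset.sum_add_distrib, ← Finset.mul_sum, hu1, hw.2.1]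
    simp
  · simp only [add_smul, mul_smul]
    rw [Finset.sum_add_distrib, ← Finset.smul_sum, hu2, hw.2.2]
    simp

theorem exists_neg {ι : Type} [Fintype ι] (u : ι → ℝ) (hu : u ≠ 0) (hs : ∑ i, u i = 0) :
    ∃ j, u j < 0 := by
  by_contra hcon
  push Not at hcon
  apply hu
  funext i
  exact (Finset.sum_eq_zero_iff_of_nonneg (fun i _ => hcon i)).1 hs i (Finset.mem_univ i)

theorem exists_rel {n : ℕ} {ι : Type} [Fintype ι] (hc : Fintype.card ι = n + 2)
    (p : ι → E n) : ∃ u : ι → ℝ, u ≠ 0 ∧ ∑ i, u i = 0 ∧ ∑ i, u i • p i = 0 := by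
  classical
  let f : (ι → ℝ) →ₗ[ℝ] ℝ × E n :=
    { toFun := fun u => (∑ i, u i, ∑ i, u i • p i)
      map_add' := by
        intro u v
        ext1
        · simp [Finset.sum_add_distrib]
        · simp [add_smul, Finset.sum_add_distrib]
      map_smul' := by
        intro c u
        ext1
        · simp [Finset.mul_sum]
        · simp [mul_smul, Finset.smul_sum] }
  have hlt : Module.finrank ℝ (ℝ × E n) < Module.finrank ℝ (ι → ℝ) := by
    rw [Module.finrank_prod, Module.finrank_self, finrank_euclideanSpace_fin,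
      Module.finrank_fintype_fun_eq_card, hc]
    omega
  have h := LinearMap.ker_ne_bot_of_finrank_lt (f := f) hlt
  obtain ⟨u, hu, hu0⟩ := Submodule.exists_mem_ne_zero_of_ne_bot h
  have h1 : f u = 0 := hu
  exact ⟨u, hu0, congrArg Prod.fst h1, congrArg Prod.snd h1⟩

theorem taskEven : TaskEven := by
  intro n ι _ _ hc p y hgen
  classical
  -- at most one zero coordinate
  have hone : ∀ w, Wt p y w → ∀ i j, w i = 0 → w j = 0 → i = j := by
    intro w hw i j hi hj
    by_contra hij
    refine hgen ({i, j}ᶜ : Finset ι) ?_ ?_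
    · rw [Finset.card_compl, Finset.card_pair hij, hc]
      omega
    · rw [hull_iff]
      refine ⟨w, hw, ?_⟩
      intro k hk
      have : k = i ∨ k = j := by
        by_contra hcon
        push Not at hcon
        apply hk
        simp [hcon.1, hcon.2]
      rcases this with rfl | rfl
      · exact hi
      · exact hj
  have hZ : ∀ i, y ∈ convexHull ℝ (p '' {i}ᶜ) ↔ ∃ w, Wt p y w ∧ w i = 0 := by
    intro i
    rw [hull_iff]
    constructor
    · rintro ⟨w, h1, h2⟩
      exact ⟨w, h1, h2 i (by simp)⟩
    · rintro ⟨w, h1, h2⟩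
      refine ⟨w, h1, fun k hk => ?_⟩
      have : k = i := by simpa using hk
      rw [this, h2]
  -- positivity of the other coordinates
  have hpos : ∀ w, Wt p y w → ∀ i, w i = 0 → ∀ j, j ≠ i → 0 < w j := by
    intro w hw i hi j hj
    exact lt_of_le_of_ne (hw.1 j) (fun h => hj (hone w hw j i h.symm hi))
  -- a relation with vanishing coordinate is zero
  have hrel : ∀ w, Wt p y w → ∀ i, w i = 0 → ∀ u : ι → ℝ, ∑ k, u k = 0 →
      ∑ k, u k • p k = 0 → u i = 0 → u = 0 := by
    intro w hw i hi u hu1 hu2 hui
    by_contra hu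
    obtain ⟨t, ht, j, hj, hj0, hw'⟩ := move p y w u hw hu1 hu2 (exists_neg u hu hu1) (by
      intro j hj
      exact hpos w hw i hi j (by rintro rfl; rw [hui] at hj; exact lt_irrefl _ hj))
    have := hone _ hw' j i hj0 (by simp [hi, hui])
    rw [this, hui] at hj
    exact lt_irrefl _ hj
  rcases Set.eq_empty_or_nonempty {i : ι | y ∈ convexHull ℝ (p '' {i}ᶜ)} with h | ⟨i, hi⟩
  · rw [h]
    simp
  · obtain ⟨w, hw, hwi⟩ := (hZ i).1 hi
    obtain ⟨u0, hu0, hu1, hu2⟩ := exists_rel hc p
    obtain ⟨u, hus, hup, hui⟩ : ∃ u : ι → ℝ, ∑ k, u k = 0 ∧ ∑ k, u k • p k = 0 ∧ 0 < u i := by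
      have hne : u0 i ≠ 0 := fun h => hu0 (hrel w hw i hwi u0 hu1 hu2 h)
      rcases lt_or_gt_of_ne hne with h | h
      · refine ⟨fun k => - u0 k, ?_, ?_, ?_⟩
        · rw [Finset.sum_neg_distrib, hu1, neg_zero]
        · simp only [neg_smul]
          rw [Finset.sum_neg_distrib, hu2, neg_zero]
        · simpa using h
      · exact ⟨u0, hu1, hu2, h⟩
    obtain ⟨t, ht, j, hj, hj0, hw'⟩ := move p y w u hw hus hup
      (exists_neg u (by rintro rfl; simp at hui) hus) (by
      intro j hj
      exact hpos w hw i hwi j (by rintro rfl; exact lt_asymm hj hui))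
    have hji : j ≠ i := by
      rintro rfl
      exact lt_asymm hj hui
    set v : ι → ℝ := fun k => w k + t * u k with hv
    have hset : {i : ι | y ∈ convexHull ℝ (p '' {i}ᶜ)} = {i, j} := by
      ext k
      simp only [Set.mem_setOf_eq, Set.mem_insert_iff, Set.mem_singleton_iff]
      constructor
      · intro hk
        by_contra hcon
        push Not at hcon
        obtain ⟨hki, hkj⟩ := hcon
        obtain ⟨x, hx, hxk⟩ := (hZ k).1 hk
        have hvi : 0 < v i := hpos v hw' j hj0 i hji.symm
        have hxi : 0 < x i := hpos x hx k hxk i (Ne.symm hki)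
        have hxj : 0 < x j := hpos x hx k hxk j (Ne.symm hkj)
        have hwj : 0 < w j := hpos w hw i hwi j hji
        have hwk : 0 < w k := hpos w hw i hwi k hki
        have hvk : 0 < v k := hpos v hw' j hj0 k hkj
        have hz : (fun l => x i * (v l - w l) - v i * (x l - w l)) = 0 := by
          refine hrel w hw i hwi _ ?_ ?_ ?_
          · rw [Finset.sum_sub_distrib, ← Finset.mul_sum, ← Finset.mul_sum,
              Finset.sum_sub_distrib, Finset.sum_sub_distrib, hw'.2.1, hw.2.1, hx.2.1]
            ring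
          · simp only [sub_smul, mul_smul]
            rw [Finset.sum_sub_distrib, ← Finset.smul_sum, ← Finset.smul_sum,
              Finset.sum_sub_distrib, Finset.sum_sub_distrib, hw'.2.2, hw.2.2, hx.2.2]
            simp
          · simp only [hwi]
            ring
        have hzj := congrFun hz j
        have hzk := congrFun hz k
        simp only [Pi.zero_apply] at hzj hzk
        have hvj : v j = 0 := hj0
        rw [hvj] at hzj
        rw [hxk] at hzk
        -- x i * (0 - w j) = v i * (x j - w j)
        have e1 : v i * x j = (v i - x i) * w j := by linarith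
        have h1 : 0 < v i - x i := by
          by_contra hcon
          push Not at hcon
          have := mul_pos hvi hxj
          have h2 : (v i - x i) * w j ≤ 0 := mul_nonpos_of_nonpos_of_nonneg hcon hwj.le
          linarith
        have e2 : (v i - x i) * w k + x i * v k = 0 := by linarith
        have := mul_pos h1 hwk
        have := mul_pos hxi hvk
        linarith
      · rintro (rfl | rfl)
        · exact hi
        · exact (hZ _).2 ⟨v, hw', hj0⟩
    rw [hset, Set.ncard_pair hji.symm]
    exact even_two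

end Pool.Agent.H241R3.FV.TEven
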