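import Pool.Agent.H241R3.FV.Stmts2

/-! Task TaskGen of project H241-FV (helper82). -/

set_option autoImplicit false

open MeasureTheory Metric Set Filter Topology

namespace Pool.Agent.H241R3.FV.TGen

theorem taskGen : Pool.Agent.H241R3.FV.TaskGen := by
  classical
  intro n s hs
  rcases s.eq_empty_or_nonempty with h0 | h0
  · rw [h0]
    simp
  · have hpos : 0 < s.card := Finset.card_pos.mpr h0
    have hne : affineSpan ℝ (s : Set (E n)) ≠ ⊤ := by
      intro htop
      have h1 : vectorSpan ℝ (s : Set (E n)) = ⊤ := by
        rw [← direction_affineSpan, htop, AffineSubspace.direction_top]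
      have h2 := finrank_vectorSpan_image_finset_le ℝ (id : E n → E n) s
        (n := s.card - 1) (by omega)
      rw [Finset.image_id, h1, finrank_top, finrank_euclideanSpace, Fintype.card_fin] at h2
      omega
    refine measure_mono_null ?_ (Measure.addHaar_affineSubspace volume _ hne)
    exact convexHull_subset_affineSpan _

end Pool.Agent.H241R3.FV.TGen
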