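import Pool.Agent.H241R3.FV.Stmts2

set_option autoImplicit false

open MeasureTheory Metric Set Filter Topology InnerProductGeometry

namespace Pool.Agent.H241R3.FV.TParity

open Pool.Agent.H241R3.FV

/-- points: `0` and the images of the vertices -/
lemma image_none {V : Type} {n : ℕ} (g : V → E n) (σ : Finset V) :
    (fun o : Option {v // v ∈ σ} => o.elim 0 (fun v => g v)) '' {none}ᶜ = g '' (σ : Set V) := by
  ext x
  constructor
  · rintro ⟨o, ho, rfl⟩
    cases o with
    | none => exact absurd rfl ho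
    | some v => exact ⟨v, v.2, rfl⟩
  · rintro ⟨v, hv, rfl⟩
    exact ⟨some ⟨v, hv⟩, by simp, rfl⟩

lemma image_some {V : Type} [DecidableEq V] {n : ℕ} (g : V → E n) (σ : Finset V)
    (w : {v // v ∈ σ}) :
    (fun o : Option {v // v ∈ σ} => o.elim 0 (fun v => g v)) '' {some w}ᶜ =
      insert 0 (g '' ((σ.erase w : Finset V) : Set V)) := by
  ext x
  constructor
  · rintro ⟨o, ho, rfl⟩
    cases o with
    | none => exact Or.inl rfl
    | some v =>
      refine Or.inr ⟨v, ?_, rfl⟩
      rw [Finset.mem_coe, Finset.mem_erase]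
      refine ⟨fun h => ho ?_, v.2⟩
      have : v = w := Subtype.ext h
      rw [this]; rfl
  · rintro (rfl | ⟨v, hv, rfl⟩)
    · exact ⟨none, by simp, rfl⟩
    · rw [Finset.mem_coe, Finset.mem_erase] at hv
      refine ⟨some ⟨v, hv.2⟩, ?_, rfl⟩
      intro h
      have h' : (⟨v, hv.2⟩ : {v // v ∈ σ}) = w := Option.some.inj h
      exact hv.1 (by rw [← h'])

open Classical in
lemma simplex_parity (hE : TaskEven) {V : Type} [DecidableEq V] {d : ℕ} (g : V → E (d + 1))
    (y : E (d + 1))
    (hgen : ∀ s : Finset (Option V), s.card ≤ d + 1 →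
      y ∉ convexHull ℝ ((fun o : Option V => o.elim 0 g) '' (s : Set (Option V))))
    (σ : Finset V) (hσ : σ.card = d + 2) :
    (if y ∈ convexHull ℝ (g '' (σ : Set V)) then (1 : ZMod 2) else 0) +
      ∑ v ∈ σ, (if y ∈ convexHull ℝ (insert 0 (g '' ((σ.erase v : Finset V) : Set V)))
        then (1 : ZMod 2) else 0) = 0 := by
  have key := hE (d + 1) (Option {v // v ∈ σ}) (by
    rw [Fintype.card_option, Fintype.card_coe, hσ]) (fun o => o.elim 0 (fun v => g v)) y (by
      intro s hs
      have e : (fun o : Option {v // v ∈ σ} => o.elim 0 (fun v => g v)) '' (s : Set _) =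
          (fun o : Option V => o.elim 0 g) ''
            ((s.image (Option.map Subtype.val) : Finset (Option V)) : Set (Option V)) := by
        rw [Finset.coe_image, Set.image_image]
        refine Set.image_congr (fun o _ => ?_)
        cases o <;> rfl
      rw [e]
      exact hgen _ (le_trans Finset.card_image_le hs))
  have e1 : {i : Option {v // v ∈ σ} | y ∈ convexHull ℝ
      ((fun o : Option {v // v ∈ σ} => o.elim 0 (fun v => g v)) '' {i}ᶜ)} =
      ((Finset.univ.filter (fun i : Option {v // v ∈ σ} => y ∈ convexHull ℝ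
      ((fun o : Option {v // v ∈ σ} => o.elim 0 (fun v => g v)) '' {i}ᶜ)) : Finset _) : Set _) := by
    ext i; simp
  rw [e1, Set.ncard_coe_finset] at key
  have key2 := (ZMod.natCast_eq_zero_iff_even).mpr key
  rw [Finset.natCast_card_filter, Fintype.sum_option, image_none] at key2
  rw [← Finset.sum_coe_sort σ (fun v => if y ∈ convexHull ℝ (insert 0 (g '' ((σ.erase v : Finset V) : Set V)))
        then (1 : ZMod 2) else 0)]
  rw [← key2]
  congr 1
  · congr
  · refine Finset.sum_congr rfl (fun v _ => ?_)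
    rw [image_some]
    congr

lemma sum_erase {V : Type} [DecidableEq V] {d : ℕ} (σ : Finset V) (hσ : σ.card = d + 2)
    (h : Finset V → ZMod 2) :
    ∑ v ∈ σ, h (σ.erase v) = ∑ F ∈ σ.powersetCard (d + 1), h F := by
  refine Finset.sum_bij (fun v _ => σ.erase v) ?_ ?_ ?_ ?_
  · intro v hv
    rw [Finset.mem_powersetCard]
    refine ⟨Finset.erase_subset _ _, ?_⟩
    rw [Finset.card_erase_of_mem hv, hσ]
    rfl
  · intro v hv w hw hvw
    by_contra hne
    have h1 : v ∈ σ.erase w := Finset.mem_erase.mpr ⟨hne, hv⟩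
    have hvw' : σ.erase v = σ.erase w := hvw
    rw [← hvw'] at h1
    exact (Finset.mem_erase.mp h1).1 rfl
  · intro F hF
    rw [Finset.mem_powersetCard] at hF
    have h1 : (σ \ F).card = 1 := by
      rw [Finset.card_sdiff_of_subset hF.1, hσ, hF.2]
      omega
    obtain ⟨v, hv⟩ := Finset.card_eq_one.mp h1
    have hvσ : v ∈ σ \ F := by rw [hv]; exact Finset.mem_singleton_self v
    rw [Finset.mem_sdiff] at hvσ
    refine ⟨v, hvσ.1, ?_⟩
    show σ.erase v = F
    ext w
    rw [Finset.mem_erase]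
    constructor
    · rintro ⟨h2, h3⟩
      by_contra h4
      have : w ∈ σ \ F := Finset.mem_sdiff.mpr ⟨h3, h4⟩
      rw [hv, Finset.mem_singleton] at this
      exact h2 this
    · intro h2
      exact ⟨fun h3 => hvσ.2 (h3 ▸ h2), hF.1 h2⟩
  · intro v _
    rfl

theorem taskParity : Pool.Agent.H241R3.FV.TaskParity := by
  classical
  intro hE d M _ bd ε Tr g y hgen
  have iF : Fintype Tr.V := Tr.fin
  have iD : DecidableEq Tr.V := Tr.dec
  set h : Finset Tr.V → ZMod 2 := fun F =>
    if y ∈ convexHull ℝ (insert 0 (g '' (F : Set Tr.V))) then (1 : ZMod 2) else 0 with hh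
  have s1 : ∀ σ ∈ Tr.T, (if y ∈ convexHull ℝ (g '' (σ : Set Tr.V)) then (1 : ZMod 2) else 0) +
      ∑ F ∈ σ.powersetCard (d + 1), h F = 0 := by
    intro σ hσ
    have a1 := simplex_parity hE g y hgen σ (Tr.card_T σ hσ)
    have a2 := sum_erase σ (Tr.card_T σ hσ) h
    rw [← a2]
    convert a1
  have s2 : ∑ σ ∈ Tr.T, ((if y ∈ convexHull ℝ (g '' (σ : Set Tr.V)) then (1 : ZMod 2) else 0) +
      ∑ F ∈ σ.powersetCard (d + 1), h F) = 0 := Finset.sum_eq_zero s1
  rw [Finset.sum_add_distrib] at s2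
  have s3 : ∑ σ ∈ Tr.T, ∑ F ∈ σ.powersetCard (d + 1), h F = ∑ F ∈ Tr.B, h F := by
    rw [Finset.sum_comm' (t' := Finset.univ.powersetCard (d + 1))
      (s' := fun F => Tr.T.filter (fun σ => F ⊆ σ))]
    · have hsub : Tr.B ⊆ Finset.univ.powersetCard (d + 1) := by
        intro F hF
        rw [Finset.mem_powersetCard]
        exact ⟨Finset.subset_univ _, (Tr.B_sub F hF).1⟩
      have s5 : ∀ F ∈ (Finset.univ : Finset Tr.V).powersetCard (d + 1),
          ∑ σ ∈ Tr.T.filter (fun σ => F ⊆ σ), h F = if F ∈ Tr.B then h F else 0 := by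
        intro F hF
        rw [Finset.mem_powersetCard] at hF
        rw [Finset.sum_const]
        have e3 : {σ | σ ∈ Tr.T ∧ F ⊆ σ} = ((Tr.T.filter (fun σ => F ⊆ σ) : Finset _) : Set _) := by
          ext i; simp
        by_cases hex : ∃ σ ∈ Tr.T, F ⊆ σ
        · rcases Tr.face F hF.2 hex with ⟨h1, h2⟩ | ⟨h1, h2⟩
          · rw [e3, Set.ncard_coe_finset] at h1
            rw [h1, if_neg h2, two_nsmul]
            exact ZModModule.add_self _
          · rw [e3, Set.ncard_coe_finset] at h1
            rw [h1, if_pos h2, one_nsmul]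
        · have h1 : Tr.T.filter (fun σ => F ⊆ σ) = ∅ := by
            rw [Finset.filter_eq_empty_iff]
            intro σ hσ hFσ
            exact hex ⟨σ, hσ, hFσ⟩
          have h2 : F ∉ Tr.B := fun hB => hex (Tr.B_sub F hB).2
          rw [h1, if_neg h2, Finset.card_empty, zero_nsmul]
      rw [Finset.sum_congr rfl s5, Finset.sum_ite_mem, Finset.inter_eq_right.mpr hsub]
    · intro σ F
      simp only [Finset.mem_powersetCard, Finset.mem_filter]
      constructor
      · rintro ⟨h1, h2, h3⟩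
        exact ⟨⟨h1, h2⟩, Finset.subset_univ _, h3⟩
      · rintro ⟨⟨h1, h2⟩, _, h3⟩
        exact ⟨h1, h2, h3⟩
  rw [s3] at s2
  have e1 : {σ : Finset Tr.V | σ ∈ Tr.T ∧ y ∈ convexHull ℝ (g '' (σ : Set Tr.V))} =
      ((Tr.T.filter (fun σ : Finset Tr.V => y ∈ convexHull ℝ (g '' (σ : Set Tr.V))) : Finset _) : Set _) := by
    ext i; simp
  have e2 : {F : Finset Tr.V | F ∈ Tr.B ∧ y ∈ convexHull ℝ (insert 0 (g '' (F : Set Tr.V)))} =
      ((Tr.B.filter (fun F : Finset Tr.V => y ∈ convexHull ℝ (insert 0 (g '' (F : Set Tr.V)))) : Finset _) :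
        Set _) := by
    ext i; simp
  rw [e1, e2, Set.ncard_coe_finset, Set.ncard_coe_finset, Finset.natCast_card_filter,
    Finset.natCast_card_filter]
  have s4 := eq_neg_of_add_eq_zero_left s2
  rw [ZModModule.neg_eq_self] at s4
  exact s4

end Pool.Agent.H241R3.FV.TParity
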